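import Pool.Agent.Q205.RS.Ord

/-!
Closure properties of the `Σ⁰₀` and `Σ⁰₁` relations with parameters in models of `RCA*₀`.
-/

namespace Pool.Agent.Q205.RS

set_option linter.unusedSectionVars false

variable {N : L2Structure}

abbrev Ctx (N : L2Structure) : Type := ℕ → N.M

def tail {α : Type} (v : ℕ → α) : ℕ → α := fun n => v (n + 1)

theorem cons_tail {α : Type} (v : ℕ → α) : cons (v 0) (tail v) = v := by
  funext n; cases n <;> rfl

theorem tail_cons {α : Type} (a : α) (v : ℕ → α) : tail (cons a v) = v := by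
  funext n; rfl

/-! ### substitution -/

section subst

variable {C S : Type}

def Term.subst (σ : ℕ → Term C) : Term C → Term C
  | .var i => σ i
  | .const a => .const a
  | .zero => .zero
  | .one => .one
  | .add s t => .add (s.subst σ) (t.subst σ)
  | .mul s t => .mul (s.subst σ) (t.subst σ)

theorem Term.val_subst (c : C → N.M) (σ : ℕ → Term C) (t : Term C) (v : Ctx N) :
    (t.subst σ).val N c v = t.val N c (fun i => (σ i).val N c v) := by
  induction t with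
  | var i => rfl
  | const a => rfl
  | zero => rfl
  | one => rfl
  | add s t hs ht => simp only [Term.subst, Term.val, hs, ht]
  | mul s t hs ht => simp only [Term.subst, Term.val, hs, ht]

def Term.up (σ : ℕ → Term C) : ℕ → Term C
  | 0 => .var 0
  | n + 1 => (σ n).subst (fun i => .var (i + 1))

theorem Term.up_val (c : C → N.M) (σ : ℕ → Term C) (a : N.M) (v : Ctx N) :
    (fun i => (Term.up σ i).val N c (cons a v)) = cons a (fun i => (σ i).val N c v) := by
  funext i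
  cases i with
  | zero => rfl
  | succ n =>
    simp only [Term.up, Term.val_subst, cons]
    rfl

def Formula.subst : (ℕ → Term C) → Formula C S → Formula C S
  | σ, .eq s t => .eq (s.subst σ) (t.subst σ)
  | σ, .lt s t => .lt (s.subst σ) (t.subst σ)
  | σ, .mem t X => .mem (t.subst σ) X
  | σ, .neg φ => .neg (φ.subst σ)
  | σ, .and φ ψ => .and (φ.subst σ) (ψ.subst σ)
  | σ, .ball t φ => .ball (t.subst σ) (φ.subst (Term.up σ))
  | σ, .all φ => .all (φ.subst (Term.up σ))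

theorem Formula.bounded_subst (φ : Formula C S) : ∀ σ, φ.Bounded → (φ.subst σ).Bounded := by
  induction φ with
  | eq s t => intro σ h; trivial
  | lt s t => intro σ h; trivial
  | mem t X => intro σ h; trivial
  | neg φ ih => intro σ h; exact ih σ h
  | and φ ψ ih1 ih2 => intro σ h; exact ⟨ih1 σ h.1, ih2 σ h.2⟩
  | ball t φ ih => intro σ h; exact ih _ h
  | all φ ih => intro σ h; exact h.elim

theorem Formula.holds_subst (c : C → N.M) (X : S → Set N.M) (φ : Formula C S) :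
    ∀ (σ : ℕ → Term C) (v : Ctx N),
    (φ.subst σ).Holds N c X v ↔ φ.Holds N c X (fun i => (σ i).val N c v) := by
  induction φ with
  | eq s t => intro σ v; simp only [Formula.subst, Formula.Holds, Term.val_subst]
  | lt s t => intro σ v; simp only [Formula.subst, Formula.Holds, Term.val_subst]
  | mem t X => intro σ v; simp only [Formula.subst, Formula.Holds, Term.val_subst]
  | neg φ ih => intro σ v; simp only [Formula.subst, Formula.Holds, ih]
  | and φ ψ ih1 ih2 => intro σ v; simp only [Formula.subst, Formula.Holds, ih1, ih2]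
  | ball t φ ih =>
    intro σ v
    simp only [Formula.subst, Formula.Holds, Term.val_subst, ih, Term.up_val]
  | all φ ih =>
    intro σ v
    simp only [Formula.subst, Formula.Holds, ih, Term.up_val]

end subst

/-! ### semantic classes -/

/-- `t` is the value function of a term -/
def Tm (t : Ctx N → N.M) : Prop := ∃ τ : Term N.M, ∀ v, τ.val N (fun a => a) v = t v

/-- `R` is a `Σ⁰₀` relation with parameters -/
def D0 (R : Ctx N → Prop) : Prop := ∃ φ : PFormula N, φ.Bounded ∧ ∀ v, PHolds N φ v ↔ R v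

/-- `g` is given by terms -/
def CM (g : Ctx N → Ctx N) : Prop := ∀ i, Tm (fun v => g v i)

theorem Tm.var (i : ℕ) : Tm (fun v : Ctx N => v i) := ⟨.var i, fun _ => rfl⟩
theorem Tm.const (a : N.M) : Tm (fun _ : Ctx N => a) := ⟨.const a, fun _ => rfl⟩

theorem Tm.comp {t : Ctx N → N.M} (ht : Tm t) {g : Ctx N → Ctx N} (hg : CM g) :
    Tm (fun v => t (g v)) := by
  obtain ⟨τ, hτ⟩ := ht
  choose σ hσ using hg
  refine ⟨τ.subst σ, fun v => ?_⟩
  have : (fun i => (σ i).val N (fun a => a) v) = g v := by funext i; exact hσ i v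
  rw [Term.val_subst, this]
  exact hτ _

theorem D0.comp {R : Ctx N → Prop} (hR : D0 R) {g : Ctx N → Ctx N} (hg : CM g) :
    D0 (fun v => R (g v)) := by
  obtain ⟨φ, hb, hφ⟩ := hR
  choose σ hσ using hg
  refine ⟨φ.subst σ, φ.bounded_subst σ hb, fun v => ?_⟩
  have : (fun i => (σ i).val N (fun a => a) v) = g v := by funext i; exact hσ i v
  unfold PHolds
  rw [Formula.holds_subst, this]
  exact hφ _

theorem CM.id : CM (fun v : Ctx N => v) := fun i => Tm.var i

theorem CM.tail' {g : Ctx N → Ctx N} (hg : CM g) : CM (fun v => tail (g v)) :=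
  fun i => hg (i + 1)

theorem CM.tail : CM (fun v : Ctx N => tail v) := CM.id.tail'

theorem CM.cons {t : Ctx N → N.M} {g : Ctx N → Ctx N} (ht : Tm t) (hg : CM g) :
    CM (fun v => cons (t v) (g v)) := by
  intro i
  cases i with
  | zero => exact ht
  | succ n => exact hg n

theorem Tm.tail {t : Ctx N → N.M} (ht : Tm t) : Tm (fun v => t (RS.tail v)) := ht.comp CM.tail
theorem D0.tail {R : Ctx N → Prop} (hR : D0 R) : D0 (fun v => R (RS.tail v)) := hR.comp CM.tail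

theorem D0.not {R : Ctx N → Prop} (hR : D0 R) : D0 (fun v => ¬ R v) := by
  obtain ⟨φ, hb, hφ⟩ := hR
  exact ⟨.neg φ, hb, fun v => not_congr (hφ v)⟩

theorem D0.and {R S : Ctx N → Prop} (hR : D0 R) (hS : D0 S) : D0 (fun v => R v ∧ S v) := by
  obtain ⟨φ, hb, hφ⟩ := hR
  obtain ⟨ψ, hb', hψ⟩ := hS
  exact ⟨.and φ ψ, ⟨hb, hb'⟩, fun v => and_congr (hφ v) (hψ v)⟩

theorem D0.congr {R S : Ctx N → Prop} (hR : D0 R) (h : ∀ v, R v ↔ S v) : D0 S := by
  obtain ⟨φ, hb, hφ⟩ := hR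
  exact ⟨φ, hb, fun v => (hφ v).trans (h v)⟩

theorem D0.or {R S : Ctx N → Prop} (hR : D0 R) (hS : D0 S) : D0 (fun v => R v ∨ S v) :=
  (hR.not.and hS.not).not.congr fun v => by tauto

theorem D0.imp {R S : Ctx N → Prop} (hR : D0 R) (hS : D0 S) : D0 (fun v => R v → S v) :=
  (hR.and hS.not).not.congr fun v => by tauto

theorem D0.iff {R S : Ctx N → Prop} (hR : D0 R) (hS : D0 S) : D0 (fun v => R v ↔ S v) :=
  ((hR.imp hS).and (hS.imp hR)).congr fun v => by tauto

theorem D0.true : D0 (fun _ : Ctx N => True) :=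
  ⟨.eq .zero .zero, trivial, fun _ => by simp [PHolds, Formula.Holds]⟩

theorem D0.false : D0 (fun _ : Ctx N => False) :=
  D0.true.not.congr fun _ => by simp

theorem D0.const (p : Prop) : D0 (fun _ : Ctx N => p) := by
  by_cases h : p
  · exact D0.true.congr fun _ => by simp [h]
  · exact D0.false.congr fun _ => by simp [h]

theorem D0.eq {s t : Ctx N → N.M} (hs : Tm s) (ht : Tm t) : D0 (fun v => s v = t v) := by
  obtain ⟨σ, hσ⟩ := hs
  obtain ⟨τ, hτ⟩ := ht
  exact ⟨.eq σ τ, trivial, fun v => by simp only [PHolds, Formula.Holds, hσ, hτ]⟩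

theorem D0.mem {t : Ctx N → N.M} (ht : Tm t) {X : Set N.M} (hX : X ∈ N.Sets) :
    D0 (fun v => t v ∈ X) := by
  obtain ⟨τ, hτ⟩ := ht
  exact ⟨.mem τ ⟨X, hX⟩, trivial, fun v => by simp only [PHolds, Formula.Holds, hτ]⟩

section model

variable [hN : Mod N]

theorem Tm.zero : Tm (fun _ : Ctx N => (0 : N.M)) := ⟨.zero, fun _ => rfl⟩
theorem Tm.one : Tm (fun _ : Ctx N => (1 : N.M)) := ⟨.one, fun _ => rfl⟩
theorem Tm.add {s t : Ctx N → N.M} (hs : Tm s) (ht : Tm t) : Tm (fun v => s v + t v) := by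
  obtain ⟨σ, hσ⟩ := hs
  obtain ⟨τ, hτ⟩ := ht
  exact ⟨.add σ τ, fun v => by simp only [Term.val, hσ, hτ]; rfl⟩
theorem Tm.mul {s t : Ctx N → N.M} (hs : Tm s) (ht : Tm t) : Tm (fun v => s v * t v) := by
  obtain ⟨σ, hσ⟩ := hs
  obtain ⟨τ, hτ⟩ := ht
  exact ⟨.mul σ τ, fun v => by simp only [Term.val, hσ, hτ]; rfl⟩

theorem Tm.pair {s t : Ctx N → N.M} (hs : Tm s) (ht : Tm t) :
    Tm (fun v => RS.pair N (s v) (t v)) := ((hs.add ht).mul (hs.add ht)).add hs

theorem D0.lt {s t : Ctx N → N.M} (hs : Tm s) (ht : Tm t) : D0 (fun v => s v < t v) := by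
  obtain ⟨σ, hσ⟩ := hs
  obtain ⟨τ, hτ⟩ := ht
  exact ⟨.lt σ τ, trivial, fun v => by simp only [PHolds, Formula.Holds, hσ, hτ]; rfl⟩

theorem D0.le {s t : Ctx N → N.M} (hs : Tm s) (ht : Tm t) : D0 (fun v => s v ≤ t v) :=
  (D0.lt hs (ht.add Tm.one)).congr fun v => by
    simp only [lt_add_one_iff']

theorem D0.ball {t : Ctx N → N.M} {P : Ctx N → N.M → Prop} (ht : Tm t)
    (hP : D0 (fun w => P (RS.tail w) (w 0))) : D0 (fun v => ∀ x, x < t v → P v x) := by
  obtain ⟨τ, hτ⟩ := ht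
  obtain ⟨φ, hb, hφ⟩ := hP
  refine ⟨.ball τ φ, hb, fun v => ?_⟩
  simp only [PHolds, Formula.Holds, hτ]
  exact forall_congr' fun a => imp_congr Iff.rfl (hφ (RS.cons a v))

theorem D0.bex {t : Ctx N → N.M} {P : Ctx N → N.M → Prop} (ht : Tm t)
    (hP : D0 (fun w => P (RS.tail w) (w 0))) : D0 (fun v => ∃ x, x < t v ∧ P v x) :=
  (D0.ball (P := fun v x => ¬ P v x) ht hP.not).not.congr fun v => by push Not; rfl

theorem D0.ballLe {t : Ctx N → N.M} {P : Ctx N → N.M → Prop} (ht : Tm t)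
    (hP : D0 (fun w => P (RS.tail w) (w 0))) : D0 (fun v => ∀ x, x ≤ t v → P v x) :=
  (D0.ball (ht.add Tm.one) hP).congr fun v => by simp only [lt_add_one_iff']

theorem D0.bexLe {t : Ctx N → N.M} {P : Ctx N → N.M → Prop} (ht : Tm t)
    (hP : D0 (fun w => P (RS.tail w) (w 0))) : D0 (fun v => ∃ x, x ≤ t v ∧ P v x) :=
  (D0.bex (ht.add Tm.one) hP).congr fun v => by simp only [lt_add_one_iff']

/-! ### induction -/

theorem ind_ctx {P : Ctx N → Prop} (hP : D0 P) (v : Ctx N) (h0 : P (cons 0 v))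
    (hs : ∀ n, P (cons n v) → P (cons (n + 1) v)) (n : N.M) : P (cons n v) := by
  obtain ⟨φ, hb, hφ⟩ := hP
  exact (hφ _).1 (hN.h.sigma0_induction φ hb v ((hφ _).2 h0)
    (fun n hn => (hφ _).2 (hs n ((hφ _).1 hn))) n)

theorem ind_D0 {P : N.M → Prop} (hP : D0 (fun v => P (v 0))) (h0 : P 0)
    (hs : ∀ n, P n → P (n + 1)) (n : N.M) : P n := ind_ctx hP (fun _ => 0) h0 hs n

/-- least number principle -/
theorem lnp_D0 {P : N.M → Prop} (hP : D0 (fun v => P (v 0))) (a : N.M) (ha : P a) :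
    ∃ n, n ≤ a ∧ P n ∧ ∀ m, m < n → ¬ P m := by
  by_contra hcon
  push Not at hcon
  have key : ∀ n, ∀ m, m < n → m ≤ a → ¬ P m := by
    intro n
    refine ind_D0 (P := fun n => ∀ m, m < n → m ≤ a → ¬ P m) ?_ ?_ ?_ n
    · refine D0.ball (Tm.var 0) (D0.imp (D0.le (Tm.var 0) (Tm.const a)) ?_)
      exact (hP.comp (g := fun w => cons (w 0) w) (CM.cons (Tm.var 0) CM.id)).not
    · intro m hm
      exact absurd hm (not_lt_of_ge (zero_le' m))
    · intro n ih m hm hma hPm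
      rcases lt_or_eq_of_le (lt_add_one_iff'.1 hm) with h | rfl
      · exact ih m h hma hPm
      · obtain ⟨k, hk, hPk⟩ := hcon m hma hPm
        exact ih k hk (le_trans hk.le hma) hPk
  exact key (a + 1) a (lt_add_one_iff'.2 le_rfl) le_rfl ha

/-! ### Σ₁ relations -/

/-- `R` is a `Σ⁰₁` relation with parameters -/
def S1 (R : Ctx N → Prop) : Prop :=
  ∃ Q : Ctx N → N.M → Prop, D0 (fun w => Q (tail w) (w 0)) ∧ ∀ v, R v ↔ ∃ k, Q v k

omit hN in
theorem D0.S1 {R : Ctx N → Prop} (hR : D0 R) (h0 : Nonempty N.M) : S1 R :=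
  ⟨fun v _ => R v, hR.tail, fun v => by simp⟩

theorem D0.s1 {R : Ctx N → Prop} (hR : D0 R) : RS.S1 R := hR.S1 ⟨0⟩

theorem S1.congr {R S : Ctx N → Prop} (hR : S1 R) (h : ∀ v, R v ↔ S v) : S1 S := by
  obtain ⟨Q, hQ, hRQ⟩ := hR
  exact ⟨Q, hQ, fun v => (h v).symm.trans (hRQ v)⟩

theorem S1.comp {R : Ctx N → Prop} (hR : RS.S1 R) {g : Ctx N → Ctx N} (hg : CM g) :
    RS.S1 (fun v => R (g v)) := by
  obtain ⟨Q, hQ, hRQ⟩ := hR
  refine ⟨fun v k => Q (g v) k, ?_, fun v => hRQ _⟩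
  exact hQ.comp (g := fun w => RS.cons (w 0) (g (RS.tail w)))
    (CM.cons (Tm.var 0) (fun i => (hg i).tail))

/-- bounded version of two numbers being below a third one -/
theorem exists_two {P : N.M → N.M → Prop} :
    (∃ x y, P x y) ↔ ∃ z, ∃ x, x < z ∧ ∃ y, y < z ∧ P x y := by
  constructor
  · rintro ⟨x, y, h⟩
    exact ⟨max x y + 1, x, lt_add_one_iff'.2 (le_max_left _ _), y,
      lt_add_one_iff'.2 (le_max_right _ _), h⟩
  · rintro ⟨z, x, _, y, _, h⟩
    exact ⟨x, y, h⟩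

theorem S1.ex {P : Ctx N → N.M → Prop} (hP : S1 (fun w => P (RS.tail w) (w 0))) :
    S1 (fun v => ∃ x, P v x) := by
  obtain ⟨Q, hQ, hPQ⟩ := hP
  refine ⟨fun v z => ∃ x, x < z ∧ ∃ k, k < z ∧ Q (cons x v) k, ?_, fun v => ?_⟩
  · refine D0.bex (Tm.var 0) (D0.bex (Tm.var 1) ?_)
    exact hQ.comp (g := fun u => cons (u 0) (cons (u 1) (RS.tail (RS.tail (RS.tail u)))))
      (CM.cons (Tm.var 0) (CM.cons (Tm.var 1) (CM.tail.tail'.tail')))
  · rw [← exists_two]
    exact exists_congr fun x => hPQ (cons x v)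

theorem S1.and {R S : Ctx N → Prop} (hR : S1 R) (hS : S1 S) : S1 (fun v => R v ∧ S v) := by
  obtain ⟨Q, hQ, hRQ⟩ := hR
  obtain ⟨Q', hQ', hSQ⟩ := hS
  refine ⟨fun v z => ∃ x, x < z ∧ ∃ k, k < z ∧ (Q v x ∧ Q' v k), ?_, fun v => ?_⟩
  · refine D0.bex (Tm.var 0) (D0.bex (Tm.var 1) (D0.and ?_ ?_))
    · exact hQ.comp (g := fun u => cons (u 1) (RS.tail (RS.tail (RS.tail u))))
        (CM.cons (Tm.var 1) (CM.tail.tail'.tail'))
    · exact hQ'.comp (g := fun u => cons (u 0) (RS.tail (RS.tail (RS.tail u))))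
        (CM.cons (Tm.var 0) (CM.tail.tail'.tail'))
  · show (R v ∧ S v) ↔ _
    rw [← exists_two, hRQ, hSQ]
    constructor
    · rintro ⟨⟨x, hx⟩, ⟨y, hy⟩⟩; exact ⟨x, y, hx, hy⟩
    · rintro ⟨x, y, hx, hy⟩; exact ⟨⟨x, hx⟩, ⟨y, hy⟩⟩

theorem S1.or {R S : Ctx N → Prop} (hR : S1 R) (hS : S1 S) : S1 (fun v => R v ∨ S v) := by
  obtain ⟨Q, hQ, hRQ⟩ := hR
  obtain ⟨Q', hQ', hSQ⟩ := hS
  refine ⟨fun v z => Q v z ∨ Q' v z, hQ.or hQ', fun v => ?_⟩
  show (R v ∨ S v) ↔ ∃ k, (Q v k ∨ Q' v k)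
  rw [hRQ, hSQ, exists_or]

theorem S1.bex {t : Ctx N → N.M} {P : Ctx N → N.M → Prop} (ht : Tm t)
    (hP : S1 (fun w => P (RS.tail w) (w 0))) : S1 (fun v => ∃ x, x < t v ∧ P v x) :=
  S1.ex ((D0.lt (Tm.var 0) ht.tail).s1.and hP)

/-- `Δ⁰₁` comprehension -/
theorem comp_D1 {P : N.M → Prop} (h1 : S1 (fun v => P (v 0))) (h2 : S1 (fun v => ¬ P (v 0))) :
    {n | P n} ∈ N.Sets := by
  obtain ⟨Q, ⟨φ, hb, hφ⟩, hQ⟩ := h1
  obtain ⟨Q', ⟨ψ, hb', hψ⟩, hQ'⟩ := h2
  have e1 : ∀ n, (∃ k, PHolds N φ (cons k (cons n (fun _ => 0)))) ↔ P n := fun n => by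
    refine Iff.trans ?_ (hQ (cons n (fun _ => (0 : N.M)))).symm
    exact exists_congr fun k => hφ _
  have e2 : ∀ n, (∀ k, PHolds N (Formula.neg ψ) (cons k (cons n (fun _ => 0)))) ↔ P n :=
      fun n => by
    have h3 : (∃ k, PHolds N ψ (cons k (cons n (fun _ => 0)))) ↔ ¬ P n := by
      refine Iff.trans ?_ (hQ' (cons n (fun _ => (0 : N.M)))).symm
      exact exists_congr fun k => hψ _
    have h4 : (∀ k, PHolds N (Formula.neg ψ) (cons k (cons n (fun _ => 0)))) ↔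
        ¬ ∃ k, PHolds N ψ (cons k (cons n (fun _ => 0))) := by
      rw [not_exists]; rfl
    rw [h4, h3, not_not]
  have := hN.h.delta1_comprehension φ (.neg ψ) hb hb' (fun _ => (0 : N.M))
    (fun n => (e1 n).trans (e2 n).symm)
  simpa only [e1] using this

theorem comp_D0 {P : N.M → Prop} (h : D0 (fun v => P (v 0))) : {n | P n} ∈ N.Sets :=
  comp_D1 h.s1 h.not.s1

end model

end Pool.Agent.Q205.RS
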