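import Pool.Agent.Q205.RS.Definable

/-!
Bounding for `Σ⁰₁` formulas and codes of finite sets in models of `RCA*₀`.
-/

namespace Pool.Agent.Q205.RS

set_option linter.unusedSectionVars false

variable {N : L2Structure} [hN : Mod N]

theorem pair_eq (i j : N.M) : pair N i j = (i + j) * (i + j) + i := rfl

theorem le_mul_self' (n : N.M) : n ≤ n * n := by
  rcases eq_zero_or_succ n with rfl | ⟨m, rfl⟩
  · rw [mul_zero]
  · have h : (m + 1) * (m + 1) = (m + 1) + m * (m + 1) := by ring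
    rw [h]
    exact le_add_right' _ _

theorem left_le_pair (i j : N.M) : i ≤ pair N i j := le_add_left' _ _

theorem right_le_pair (i j : N.M) : j ≤ pair N i j :=
  ((le_add_left' j i).trans (le_mul_self' _)).trans (le_add_right' _ _)

theorem sum_le_of_pair {i j i' j' : N.M} (h : pair N i j = pair N i' j') : ¬ i + j < i' + j' := by
  intro hlt
  have h1 : (i + j) + 1 ≤ i' + j' := add_one_le_iff'.2 hlt
  have h2 : ((i + j) + 1) * ((i + j) + 1) ≤ (i' + j') * (i' + j') :=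
    mul_le_mul h1 h1 (zero_le' _) (zero_le' _)
  have h3 : pair N i j < ((i + j) + 1) * ((i + j) + 1) := by
    rw [pair_eq]
    have e : ((i + j) + 1) * ((i + j) + 1) = ((i + j) * (i + j) + i) + (j + (i + j) + 1) := by ring
    rw [e]
    have : 0 < j + (i + j) + 1 := lt_of_le_of_lt (zero_le' _) (lt_add_one _)
    exact lt_add_of_pos_right _ this
  have h4 : (i' + j') * (i' + j') ≤ pair N i' j' := le_add_right' _ _
  exact absurd h (ne_of_lt ((h3.trans_le h2).trans_le h4))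

theorem pair_inj {i j i' j' : N.M} (h : pair N i j = pair N i' j') : i = i' ∧ j = j' := by
  have h1 : i + j = i' + j' :=
    le_antisymm (not_lt.1 (sum_le_of_pair h.symm)) (not_lt.1 (sum_le_of_pair h))
  have h2 : i = i' := by
    rw [pair_eq, pair_eq, h1] at h
    exact add_left_cancel h
  subst h2
  exact ⟨rfl, add_left_cancel h1⟩

/-- `B Σ⁰₁` -/
theorem bounding {Q : N.M → N.M → Prop} (hQ : D0 (fun w => Q (w 1) (w 0))) (a : N.M)
    (h : ∀ x, x < a → ∃ k, Q x k) : ∃ b, ∀ x, x < a → ∃ k, k < b ∧ Q x k := by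
  let T : N.M → N.M → Prop := fun x k => Q x k ∧ ∀ l, l < k → ¬ Q x l
  have hQ' : ∀ i j : ℕ, D0 (fun w : Ctx N => Q (w i) (w j)) := fun i j =>
    hQ.comp (g := fun w => cons (w j) (cons (w i) w))
      (CM.cons (Tm.var j) (CM.cons (Tm.var i) CM.id))
  have hT : ∀ i j : ℕ, D0 (fun w : Ctx N => T (w i) (w j)) := fun i j =>
    (hQ' i j).and (D0.ball (P := fun w l => ¬ Q (w i) l) (Tm.var j) (hQ' (i + 1) 0).not)
  have hex : ∀ x, x < a → ∃ k, T x k := by
    intro x hx
    obtain ⟨k, hk⟩ := h x hx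
    obtain ⟨n, -, hn1, hn2⟩ := lnp_D0 (P := fun k => Q x k)
      (hQ.comp (g := fun v => cons (v 0) (cons x v))
        (CM.cons (Tm.var 0) (CM.cons (Tm.const x) CM.id))) k hk
    exact ⟨n, hn1, hn2⟩
  have hTu : ∀ x k k', T x k → T x k' → k = k' := by
    intro x k k' h1 h2
    rcases lt_trichotomy k k' with h3 | h3 | h3
    · exact absurd h1.1 (h2.2 k h3)
    · exact h3
    · exact absurd h2.1 (h1.2 k' h3)
  let Z : Set N.M := {p | ∃ x, x < a ∧ ∃ y, y < a ∧ (p = pair N x y ∧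
    ∃ k, (T x k ∧ ∃ l, l ≤ k ∧ Q y l))}
  have hZ : Z ∈ N.Sets := by
    refine comp_D1 (P := fun p => ∃ x, x < a ∧ ∃ y, y < a ∧ (p = pair N x y ∧
      ∃ k, (T x k ∧ ∃ l, l ≤ k ∧ Q y l))) ?_ ?_
    · refine S1.bex (Tm.const a) (S1.bex (Tm.const a) ?_)
      refine (D0.eq (Tm.var 2) ((Tm.var 1).pair (Tm.var 0))).s1.and (S1.ex (D0.s1 ?_))
      exact (hT 2 0).and (D0.bexLe (P := fun w l => Q (w 1) l) (Tm.var 0) (hQ' 2 0))
    · have h1 : S1 (fun v : Ctx N => (∀ x, x < a → ∀ y, y < a → v 0 ≠ pair N x y) ∨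
          ∃ x, x < a ∧ ∃ y, y < a ∧ (v 0 = pair N x y ∧
            ∃ k, (T x k ∧ ∀ l, l ≤ k → ¬ Q y l))) := by
        refine S1.or (D0.s1 ?_) ?_
        · refine D0.ball (Tm.const a) (D0.ball (Tm.const a) ?_)
          exact (D0.eq (Tm.var 2) ((Tm.var 1).pair (Tm.var 0))).not
        · refine S1.bex (Tm.const a) (S1.bex (Tm.const a) ?_)
          refine (D0.eq (Tm.var 2) ((Tm.var 1).pair (Tm.var 0))).s1.and (S1.ex (D0.s1 ?_))
          exact (hT 2 0).and (D0.ballLe (P := fun w l => ¬ Q (w 1) l) (Tm.var 0) (hQ' 2 0).not)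
      refine h1.congr fun v => ?_
      constructor
      · rintro (h2 | ⟨x, hx, y, hy, h2, k, h3, h4⟩) ⟨x', hx', y', hy', h5, k', h6, l, h7, h8⟩
        · exact h2 x' hx' y' hy' h5
        · obtain ⟨rfl, rfl⟩ := pair_inj (h2.symm.trans h5)
          rw [hTu _ _ _ h6 h3] at h7
          exact h4 l h7 h8
      · intro h2
        by_cases h3 : ∃ x, x < a ∧ ∃ y, y < a ∧ v 0 = pair N x y
        · right
          obtain ⟨x, hx, y, hy, h4⟩ := h3
          obtain ⟨k, hk⟩ := hex x hx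
          refine ⟨x, hx, y, hy, h4, k, hk, fun l hl hq => h2 ?_⟩
          exact ⟨x, hx, y, hy, h4, k, hk, l, hl, hq⟩
        · left
          intro x hx y hy h4
          exact h3 ⟨x, hx, y, hy, h4⟩
  have hZi : ∀ x y, x < a → y < a → (pair N x y ∈ Z ↔ ∃ k, (T x k ∧ ∃ l, l ≤ k ∧ Q y l)) := by
    intro x y hx hy
    constructor
    · rintro ⟨x', _, y', _, h1, h2⟩
      obtain ⟨rfl, rfl⟩ := pair_inj h1
      exact h2
    · intro h2
      exact ⟨x, hx, y, hy, rfl, h2⟩
  have key : ∀ n, n ≤ a → n = 0 ∨ ∃ x, x < n ∧ ∀ y, y < n → pair N x y ∈ Z := by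
    intro n
    refine ind_D0 (P := fun n => n ≤ a → n = 0 ∨ ∃ x, x < n ∧ ∀ y, y < n → pair N x y ∈ Z)
      ?_ ?_ ?_ n
    · refine D0.imp (D0.le (Tm.var 0) (Tm.const a)) (D0.or (D0.eq (Tm.var 0) Tm.zero) ?_)
      exact D0.bex (Tm.var 0) (D0.ball (Tm.var 1) (D0.mem ((Tm.var 1).pair (Tm.var 0)) hZ))
    · intro _; left; rfl
    · intro n ih hn
      have hna : n < a := add_one_le_iff'.1 hn
      right
      obtain ⟨k, hk⟩ := hex n hna
      have hnn : ∀ y, y ≤ n → (∃ l, l ≤ k ∧ Q y l) → pair N n y ∈ Z := fun y hy h1 =>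
        (hZi n y hna (lt_of_le_of_lt hy hna)).2 ⟨k, hk, h1⟩
      rcases ih hna.le with rfl | ⟨x, hx, h1⟩
      · refine ⟨0, lt_add_one _, fun y hy => ?_⟩
        have hy0 : y = 0 := le_antisymm (lt_add_one_iff'.1 hy) (zero_le' _)
        subst hy0
        exact hnn _ le_rfl ⟨k, le_rfl, hk.1⟩
      · have hxa := hx.trans hna
        obtain ⟨kx, hkx⟩ := hex x hxa
        rcases le_or_gt k kx with h2 | h2
        · refine ⟨x, hx.trans (lt_add_one _), fun y hy => ?_⟩
          rcases lt_or_eq_of_le (lt_add_one_iff'.1 hy) with hy | rfl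
          · exact h1 y hy
          · exact (hZi x y hxa hna).2 ⟨kx, hkx, k, h2, hk.1⟩
        · refine ⟨n, lt_add_one _, fun y hy => ?_⟩
          rcases lt_or_eq_of_le (lt_add_one_iff'.1 hy) with hy | rfl
          · obtain ⟨k', hk', l, hl, hq⟩ := (hZi x y hxa (hy.trans hna)).1 (h1 y hy)
            rw [hTu _ _ _ hk' hkx] at hl
            exact hnn y hy.le ⟨l, hl.trans h2.le, hq⟩
          · exact hnn y le_rfl ⟨k, le_rfl, hk.1⟩
  rcases key a le_rfl with rfl | ⟨x, hx, h1⟩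
  · exact ⟨0, fun x hx => absurd hx (not_lt_of_ge (zero_le' x))⟩
  · obtain ⟨k, hk⟩ := hex x hx
    refine ⟨k + 1, fun y hy => ?_⟩
    obtain ⟨k', hk', l, hl, hq⟩ := (hZi x y hx hy).1 (h1 y hy)
    rw [hTu _ _ _ hk' hk] at hl
    exact ⟨l, lt_add_one_iff'.2 hl, hq⟩

/-! ### the exponential function -/

theorem exists_exp : ∃ E ∈ N.Sets, ∃ e : N.M → N.M, (∀ x y, pair N x y ∈ E ↔ y = e x) ∧
    e 0 = 1 ∧ ∀ x, e (x + 1) = e x + e x := by
  obtain ⟨E, hE, h0, h1, h2⟩ := hN.h.exp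
  choose e he1 he2 using h2
  have he : ∀ x y, pair N x y ∈ E ↔ y = e x := fun x y => by
    constructor
    · intro h; exact he2 x y h
    · rintro rfl; exact he1 x
  refine ⟨E, hE, e, he, ((he _ _).1 h0).symm, fun x => ?_⟩
  exact ((he _ _).1 (h1 x (e x) (he1 x))).symm

theorem ind_set {A : Set N.M} (hA : A ∈ N.Sets) (h0 : (0 : N.M) ∈ A)
    (hs : ∀ n, n ∈ A → n + 1 ∈ A) (n : N.M) : n ∈ A :=
  ind_D0 (P := fun n => n ∈ A) (D0.mem (Tm.var 0) hA) h0 hs n

section exp

variable {E : Set N.M} (hE : E ∈ N.Sets) {e : N.M → N.M}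
  (he : ∀ x y, pair N x y ∈ E ↔ y = e x) (e0 : e 0 = 1) (es : ∀ x, e (x + 1) = e x + e x)

include hE he in
theorem comp_e {R : N.M → N.M → Prop} (hR : D0 (fun w => R (w 1) (w 0))) (m : N.M) :
    {x | R (e x) (e (m + x))} ∈ N.Sets := by
  have hR' : D0 (fun w : Ctx N => R (w 1) (w 0)) := hR
  refine comp_D1 (P := fun x => R (e x) (e (m + x))) ?_ ?_
  · refine S1.congr (R := fun v => ∃ y, ∃ z, (pair N (v 0) y ∈ E ∧ (pair N (m + v 0) z ∈ E ∧
      R y z))) ?_ fun v => ?_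
    · refine S1.ex (S1.ex (D0.s1 ?_))
      exact (D0.mem ((Tm.var 2).pair (Tm.var 1)) hE).and
        ((D0.mem (((Tm.const m).add (Tm.var 2)).pair (Tm.var 0)) hE).and hR')
    · constructor
      · rintro ⟨y, z, h1, h2, h3⟩
        rw [he] at h1 h2
        rw [← h1, ← h2]; exact h3
      · intro h
        exact ⟨_, _, (he _ _).2 rfl, (he _ _).2 rfl, h⟩
  · refine S1.congr (R := fun v => ∃ y, ∃ z, (pair N (v 0) y ∈ E ∧ (pair N (m + v 0) z ∈ E ∧
      ¬ R y z))) ?_ fun v => ?_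
    · refine S1.ex (S1.ex (D0.s1 ?_))
      exact (D0.mem ((Tm.var 2).pair (Tm.var 1)) hE).and
        ((D0.mem (((Tm.const m).add (Tm.var 2)).pair (Tm.var 0)) hE).and hR'.not)
    · constructor
      · rintro ⟨y, z, h1, h2, h3⟩
        rw [he] at h1 h2
        rw [← h1, ← h2]; exact h3
      · intro h
        exact ⟨_, _, (he _ _).2 rfl, (he _ _).2 rfl, h⟩

include hE he e0 es in
theorem e_pos (x : N.M) : 0 < e x := by
  have h := comp_e hE he (R := fun y _ => 0 < y) (D0.lt Tm.zero (Tm.var 1)) 0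
  refine ind_set h ?_ ?_ x
  · show 0 < e 0
    rw [e0]; exact zero_lt_one
  · intro n hn
    have hn' : 0 < e n := hn
    show 0 < e (n + 1)
    rw [es]; exact add_pos hn' hn'

include hE he e0 es in
theorem e_add (m x : N.M) : e (m + x) = e m * e x := by
  have h := comp_e hE he (R := fun y z => z = e m * y)
    (D0.eq (Tm.var 0) ((Tm.const (e m)).mul (Tm.var 1))) m
  refine ind_set h ?_ ?_ x
  · show e (m + 0) = e m * e 0
    rw [e0, mul_one, add_zero]
  · intro n hn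
    have hn' : e (m + n) = e m * e n := hn
    show e (m + (n + 1)) = e m * e (n + 1)
    rw [← add_assoc, es, es, hn', mul_add]

include hE he e0 es in
theorem e_mono {m n : N.M} (h : m ≤ n) : e m ≤ e n := by
  obtain ⟨c, rfl⟩ := exists_add' h
  rw [e_add hE he e0 es]
  have h1 : 1 ≤ e c := by
    have := add_one_le_iff'.2 (e_pos hE he e0 es c)
    rwa [zero_add] at this
  calc e m = e m * 1 := (mul_one _).symm
    _ ≤ e m * e c := mul_le_mul le_rfl h1 (zero_le' _) (zero_le' _)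

end exp

/-! ### division -/

theorem div_unique {q q' d s s' : N.M} (h : q * d + s = q' * d + s') (hs : s < d) (hs' : s' < d) :
    q = q' ∧ s = s' := by
  have key : ∀ q q' s s' : N.M, q * d + s = q' * d + s' → s < d → ¬ q < q' := by
    intro q q' s s' h hs hlt
    have h1 : (q + 1) * d ≤ q' * d := mul_le_mul (add_one_le_iff'.2 hlt) le_rfl (zero_le' _)
      (zero_le' _)
    have h2 : q * d + s < (q + 1) * d := by
      rw [add_mul, one_mul]
      exact (add_lt_add_iff_left _).2 hs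
    exact absurd h (ne_of_lt ((h2.trans_le h1).trans_le (le_add_right' _ _)))
  have h1 : q = q' := le_antisymm (not_lt.1 (key _ _ _ _ h.symm hs')) (not_lt.1 (key _ _ _ _ h hs))
  subst h1
  exact ⟨rfl, add_left_cancel h⟩

theorem div_exists (y : N.M) {d : N.M} (hd : 0 < d) : ∃ q s, y = q * d + s ∧ s < d := by
  have h : ∃ q, q ≤ y ∧ ∃ s, s < d ∧ y = q * d + s := by
    refine ind_D0 (P := fun y => ∃ q, q ≤ y ∧ ∃ s, s < d ∧ y = q * d + s) ?_ ?_ ?_ y
    · refine D0.bexLe (Tm.var 0) (D0.bex (Tm.const d) ?_)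
      exact D0.eq (Tm.var 2) (((Tm.var 1).mul (Tm.const d)).add (Tm.var 0))
    · exact ⟨0, le_rfl, 0, hd, by rw [zero_mul, add_zero]⟩
    · rintro y ⟨q, hq, s, hs, h⟩
      rcases lt_or_eq_of_le (add_one_le_iff'.2 hs) with h1 | h1
      · exact ⟨q, hq.trans (lt_add_one _).le, s + 1, h1, by rw [h, add_assoc]⟩
      · refine ⟨q + 1, add_le_add hq le_rfl, 0, hd, ?_⟩
        rw [h, add_assoc, h1, add_mul, one_mul, add_zero]
  obtain ⟨q, -, s, hs, h⟩ := h
  exact ⟨q, s, h, hs⟩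

theorem parity (w : N.M) : ∃ u, w = u + u ∨ w = u + u + 1 := by
  have h2 : (0 : N.M) < 1 + 1 := add_pos zero_lt_one zero_lt_one
  obtain ⟨q, s, h, hs⟩ := div_exists w h2
  refine ⟨q, ?_⟩
  have hs' : s ≤ 1 := lt_add_one_iff'.1 hs
  rcases lt_or_eq_of_le hs' with h1 | h1
  · left
    have h3 : s = 0 := le_antisymm (lt_add_one_iff'.1 (by rwa [zero_add])) (zero_le' _)
    rw [h, h3]; ring
  · right
    rw [h, h1]; ring

theorem parity_ne (u u' : N.M) : u + u ≠ u' + u' + 1 := by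
  intro h
  rcases le_or_gt u u' with h1 | h1
  · have := lt_of_le_of_lt (add_le_add h1 h1) (lt_add_one _)
    exact absurd h (ne_of_lt this)
  · have h2 := add_one_le_iff'.2 h1
    have h3 : u' + u' + 1 < (u' + 1) + (u' + 1) := by
      have e : (u' + 1) + (u' + 1) = (u' + u' + 1) + 1 := by ring
      rw [e]; exact lt_add_one _
    exact absurd h.symm (ne_of_lt (h3.trans_le (add_le_add h2 h2)))

/-! ### codes of finite sets -/

/-- For every `a` there are a bound `c` and a set `B` which codes finite sets below `a` by numbers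
below `c`. -/
theorem exists_codes (a : N.M) : ∃ B ∈ N.Sets, ∃ c : N.M, 0 < c ∧
    ∀ y, y < c → ∀ n, n < a → ∀ b : Prop, ∃ y', y' < c ∧
      (∀ m, m < n → (pair N m y' ∈ B ↔ pair N m y ∈ B)) ∧ (pair N n y' ∈ B ↔ b) := by
  obtain ⟨E, hE, e, he, e0, es⟩ := exists_exp (N := N)
  have epos := e_pos hE he e0 es
  have eadd := e_add hE he e0 es
  let Bit : N.M → N.M → Prop := fun m y => ∃ u s, y = (u + u + 1) * e m + s ∧ s < e m
  let B : Set N.M := {p | ∃ m, m ≤ p ∧ ∃ y, y ≤ p ∧ (p = pair N m y ∧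
    ∃ q, q ≤ y ∧ (pair N m q ∈ E ∧ ∃ u, u ≤ y ∧ ∃ s, s < q ∧ y = (u + u + 1) * q + s))}
  have hB : B ∈ N.Sets := by
    refine comp_D0 (P := fun p => ∃ m, m ≤ p ∧ ∃ y, y ≤ p ∧ (p = pair N m y ∧
      ∃ q, q ≤ y ∧ (pair N m q ∈ E ∧ ∃ u, u ≤ y ∧ ∃ s, s < q ∧ y = (u + u + 1) * q + s))) ?_
    refine D0.bexLe (Tm.var 0) (D0.bexLe (Tm.var 1) ((D0.eq (Tm.var 2)
      ((Tm.var 1).pair (Tm.var 0))).and (D0.bexLe (Tm.var 0) ((D0.mem
      ((Tm.var 2).pair (Tm.var 0)) hE).and (D0.bexLe (Tm.var 1) (D0.bex (Tm.var 1) ?_))))))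
    exact D0.eq (Tm.var 3) ((((((Tm.var 1).add (Tm.var 1)).add Tm.one).mul (Tm.var 2)).add
      (Tm.var 0)))
  have hBit : ∀ m y, pair N m y ∈ B ↔ Bit m y := by
    intro m y
    constructor
    · rintro ⟨m', -, y', -, h1, q, -, h2, u, -, s, hs, h3⟩
      obtain ⟨rfl, rfl⟩ := pair_inj h1
      rw [he] at h2
      subst h2
      exact ⟨u, s, h3, hs⟩
    · rintro ⟨u, s, h3, hs⟩
      have h4 : e m ≤ (u + u + 1) * e m := by
        calc e m = 1 * e m := (one_mul _).symm
          _ ≤ (u + u + 1) * e m := mul_le_mul (le_add_left' _ _) le_rfl (zero_le' _) (zero_le' _)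
      have h5 : u ≤ (u + u + 1) * e m := by
        have h6 : (1 : N.M) ≤ e m := by
          have := add_one_le_iff'.2 (epos m)
          rwa [zero_add] at this
        calc u = u * 1 := (mul_one _).symm
          _ ≤ (u + u + 1) * e m := mul_le_mul (by rw [add_assoc]; exact le_add_right' _ _) h6
            (zero_le' _) (zero_le' _)
      have h7 : (u + u + 1) * e m ≤ y := by rw [h3]; exact le_add_right' _ _
      exact ⟨m, left_le_pair _ _, y, right_le_pair _ _, rfl, e m, h4.trans h7, (he _ _).2 rfl,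
        u, h5.trans h7, s, hs, h3⟩
  have hlow : ∀ m n q s, m < n → (Bit m (q * e n + s) ↔ Bit m s) := by
    intro m n q s hmn
    obtain ⟨k, rfl⟩ := exists_add' (add_one_le_iff'.2 hmn)
    have e1 : q * e (m + 1 + k) = (q * e k + q * e k) * e m := by
      rw [eadd, es]; ring
    rw [e1]
    constructor
    · rintro ⟨u, t, h1, h2⟩
      obtain ⟨w, s', h3, h4⟩ := div_exists s (epos m)
      obtain ⟨u', rfl | rfl⟩ := parity w
      · exfalso
        rw [h3, ← add_assoc, ← add_mul] at h1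
        have h5 := (div_unique h1 h4 h2).1
        apply parity_ne (q * e k + u') u
        rw [← h5]; ring
      · exact ⟨u', s', h3, h4⟩
    · rintro ⟨u, t, h1, h2⟩
      exact ⟨q * e k + u, t, by rw [h1]; ring, h2⟩
  refine ⟨B, hB, e a, epos a, fun y _ n hn b => ?_⟩
  obtain ⟨q, s, h1, h2⟩ := div_exists y (epos n)
  have h3 : e (n + 1) ≤ e a := e_mono hE he e0 es (add_one_le_iff'.2 hn)
  by_cases hb : b
  · refine ⟨e n + s, ?_, fun m hm => ?_, ?_⟩
    · refine lt_of_lt_of_le ?_ h3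
      rw [es]; exact (add_lt_add_iff_left _).2 h2
    · rw [hBit, hBit, h1, hlow m n q s hm]
      have := hlow m n 1 s hm
      rwa [one_mul] at this
    · rw [hBit]
      exact iff_of_true ⟨0, s, by rw [add_zero, zero_add, one_mul], h2⟩ hb
  · refine ⟨s, ?_, fun m hm => ?_, ?_⟩
    · refine lt_of_lt_of_le h2 (le_trans ?_ h3)
      rw [es]; exact le_add_right' _ _
    · rw [hBit, hBit, h1, hlow m n q s hm]
    · rw [hBit]
      refine iff_of_false ?_ hb
      rintro ⟨u, t, h4, h5⟩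
      have h6 : e n ≤ (u + u + 1) * e n + t := by
        refine le_trans ?_ (le_add_right' _ _)
        calc e n = 1 * e n := (one_mul _).symm
          _ ≤ (u + u + 1) * e n := mul_le_mul (le_add_left' _ _) le_rfl (zero_le' _) (zero_le' _)
      rw [← h4] at h6
      exact absurd h2 (not_lt_of_ge h6)

end Pool.Agent.Q205.RS
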