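import Pool.Agent.Q205.RS.Codes

/-!
`RCA*₀ + COH` proves induction for `Σ⁰₁` formulas.
-/

namespace Pool.Agent.Q205.RS

set_option linter.unusedSectionVars false

variable {N : L2Structure} [hN : Mod N]

/-- A relation given by a parameter context. -/
theorem D0.param {Q : Ctx N → Prop} (hQ : D0 Q) (v : Ctx N) :
    D0 (fun w => Q (cons (w 0) (cons (w 1) v))) :=
  hQ.comp (g := fun w => cons (w 0) (cons (w 1) v))
    (CM.cons (Tm.var 0) (CM.cons (Tm.var 1) fun i => Tm.const (v i)))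

/-- The core: a `Σ⁰₁` proper cut contradicts the existence of cohesive sets. -/
theorem no_cut (hcoh : COH N) {Q : N.M → N.M → Prop} (hQ : D0 (fun w => Q (w 1) (w 0)))
    (h0 : ∃ k, Q 0 k) (hs : ∀ n, (∃ k, Q n k) → ∃ k, Q (n + 1) k) (a : N.M)
    (ha : ¬ ∃ k, Q a k) : False := by
  -- the relation `j x = m`
  let J : N.M → N.M → Prop := fun x m => (∀ m', m' < m → ∃ k, k ≤ x ∧ Q m' k) ∧
    ∀ k, k ≤ x → ¬ Q m k
  let G : N.M → N.M → Prop := fun x m => ∀ m', m' ≤ m → ∃ k, k ≤ x ∧ Q m' k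
  have hQ' : ∀ i j : ℕ, D0 (fun w : Ctx N => Q (w i) (w j)) := fun i j =>
    hQ.comp (g := fun w => cons (w j) (cons (w i) w))
      (CM.cons (Tm.var j) (CM.cons (Tm.var i) CM.id))
  have hJ : ∀ i j : ℕ, D0 (fun w : Ctx N => J (w i) (w j)) := fun i j =>
    (D0.ball (P := fun w m' => ∃ k, k ≤ w i ∧ Q m' k) (Tm.var j)
      (D0.bexLe (P := fun w k => Q (w 0) k) (Tm.var (i + 1)) (hQ' 1 0))).and
    (D0.ballLe (P := fun w k => ¬ Q (w j) k) (Tm.var i) (hQ' (j + 1) 0).not)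
  have hG : ∀ i j : ℕ, D0 (fun w : Ctx N => G (w i) (w j)) := fun i j =>
    (D0.ballLe (P := fun w m' => ∃ k, k ≤ w i ∧ Q m' k) (Tm.var j)
      (D0.bexLe (P := fun w k => Q (w 0) k) (Tm.var (i + 1)) (hQ' 1 0)))
  -- the cut
  let I : N.M → Prop := fun m => ∀ m', m' ≤ m → ∃ k, Q m' k
  have hJex : ∀ x, ∃ m, J x m := by
    intro x
    obtain ⟨m, -, h1, h2⟩ := lnp_D0 (P := fun m => ∀ k, k ≤ x → ¬ Q m k)
      (D0.ballLe (P := fun w k => ¬ Q (w 0) k) (Tm.const x) (hQ' 1 0).not) a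
      (fun k _ hk => ha ⟨k, hk⟩)
    refine ⟨m, fun m' hm' => ?_, h1⟩
    have := h2 m' hm'
    push Not at this
    exact this
  have hJI : ∀ x m, J x m → I m := by
    intro x m hm m' hm'
    rcases lt_or_eq_of_le hm' with h1 | rfl
    · obtain ⟨k, -, hk⟩ := hm.1 m' h1
      exact ⟨k, hk⟩
    · rcases eq_zero_or_succ m' with rfl | ⟨n, rfl⟩
      · exact h0
      · obtain ⟨k, -, hk⟩ := hm.1 n (lt_add_one _)
        exact hs n ⟨k, hk⟩
  have hIa : ∀ m, I m → m < a := by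
    intro m hm
    by_contra hcon
    exact ha (hm a (not_lt.1 hcon))
  have hJmono : ∀ x x' m m', x ≤ x' → J x m → J x' m' → m ≤ m' := by
    intro x x' m m' hx h1 h2
    by_contra hcon
    obtain ⟨k, hk, hq⟩ := h1.1 m' (not_le.1 hcon)
    exact h2.2 k (hk.trans hx) hq
  have hJG : ∀ x m m', J x m → (G x m' ↔ m' < m) := by
    intro x m m' h
    constructor
    · intro hg
      by_contra hcon
      obtain ⟨k, hk, hq⟩ := hg m (not_lt.1 hcon)
      exact h.2 k hk hq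
    · intro hlt n hn
      exact h.1 n (lt_of_le_of_lt hn hlt)
  have hIG : ∀ m, I m → ∃ b, ∀ x, b ≤ x → G x m := by
    intro m hm
    obtain ⟨b, hb⟩ := bounding hQ (m + 1) (fun x hx => hm x (lt_add_one_iff'.1 hx))
    refine ⟨b, fun x hx m' hm' => ?_⟩
    obtain ⟨k, hk, hq⟩ := hb m' (lt_add_one_iff'.2 hm')
    exact ⟨k, hk.le.trans hx, hq⟩
  -- codes
  obtain ⟨B, hB, c, hc, hmod⟩ := exists_codes a
  -- the sequence of sets
  have hR : {p | ∃ r, r ≤ p ∧ ∃ x, x ≤ p ∧ (p = pair N r x ∧ ∃ m, m ≤ a ∧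
      (J x m ∧ pair N m r ∈ B))} ∈ N.Sets := by
    refine comp_D0 (P := fun p => ∃ r, r ≤ p ∧ ∃ x, x ≤ p ∧ (p = pair N r x ∧ ∃ m, m ≤ a ∧
      (J x m ∧ pair N m r ∈ B))) ?_
    refine D0.bexLe (Tm.var 0) (D0.bexLe (Tm.var 1) ((D0.eq (Tm.var 2)
      ((Tm.var 1).pair (Tm.var 0))).and (D0.bexLe (Tm.const a) (D0.and ?_ ?_))))
    · exact hJ 1 0
    · exact D0.mem ((Tm.var 0).pair (Tm.var 2)) hB
  obtain ⟨X, hX, hXu, hXc⟩ := hcoh _ hR
  have hXu' : ∀ b : N.M, ∃ x ∈ X, b < x := hXu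
  have hRi : ∀ r x m, J x m → (pair N r x ∈ {p | ∃ r, r ≤ p ∧ ∃ x, x ≤ p ∧ (p = pair N r x ∧
      ∃ m, m ≤ a ∧ (J x m ∧ pair N m r ∈ B))} ↔ pair N m r ∈ B) := by
    intro r x m hm
    constructor
    · rintro ⟨r', -, x', -, h1, m', -, h2, h3⟩
      obtain ⟨rfl, rfl⟩ := pair_inj h1
      have : m' = m := le_antisymm (hJmono _ _ _ _ le_rfl h2 hm) (hJmono _ _ _ _ le_rfl hm h2)
      rwa [this] at h3
    · intro h
      exact ⟨r, left_le_pair _ _, x, right_le_pair _ _, rfl, m, (hIa m (hJI x m hm)).le, hm, h⟩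
  -- the coding lemma
  let α : N.M → N.M → Prop := fun m x => x ∈ X ∧ J x m
  let β : N.M → N.M → Prop := fun m x => G x m ∧ ∀ x', x' ≤ x → x' ∈ X → ¬ J x' m
  have hα : ∀ i j : ℕ, D0 (fun w : Ctx N => α (w i) (w j)) := fun i j =>
    (D0.mem (Tm.var j) hX).and (hJ j i)
  have hβ : ∀ i j : ℕ, D0 (fun w : Ctx N => β (w i) (w j)) := fun i j =>
    (hG j i).and (D0.ballLe (P := fun w x' => x' ∈ X → ¬ J x' (w i)) (Tm.var j)
      ((D0.mem (Tm.var 0) hX).imp (hJ 0 (i + 1)).not))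
  have hαβ : ∀ m x x', α m x → β m x' → False := by
    intro m x x' h1 h2
    rcases le_or_gt x x' with h | h
    · exact h2.2 x h h1.1 h1.2
    · obtain ⟨k, hk, hq⟩ := h2.1 m le_rfl
      exact h1.2.2 k (hk.trans h.le) hq
  have hor : ∀ m, I m → (∃ x, α m x) ∨ ∃ x, β m x := by
    intro m hm
    obtain ⟨b, hb⟩ := hIG m hm
    by_cases h : ∃ x, α m x
    · exact Or.inl h
    · right
      refine ⟨b, hb b le_rfl, fun x' _ hx' hJ' => h ⟨x', hx', hJ'⟩⟩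
  have hcode : ∃ y, y < c ∧ ∀ m, I m → (pair N m y ∈ B ↔ ∃ x, α m x) := by
    by_contra hcon
    push Not at hcon
    have h1 : ∀ y, y < c → ∃ x, ∃ m, m < a ∧
        ((pair N m y ∈ B ∧ β m x) ∨ (pair N m y ∉ B ∧ α m x)) := by
      intro y hy
      obtain ⟨m, hm, h2⟩ := hcon y hy
      rcases h2 with ⟨h3, h4⟩ | ⟨h3, x, h4⟩
      · rcases hor m hm with ⟨x, hx⟩ | ⟨x, hx⟩
        · exact absurd hx (h4 x)
        · exact ⟨x, m, hIa m hm, Or.inl ⟨h3, hx⟩⟩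
      · exact ⟨x, m, hIa m hm, Or.inr ⟨h3, h4⟩⟩
    obtain ⟨b, hb⟩ := bounding (Q := fun y x => ∃ m, m < a ∧
        ((pair N m y ∈ B ∧ β m x) ∨ (pair N m y ∉ B ∧ α m x))) (by
      refine D0.bex (P := fun w m => (pair N m (w 1) ∈ B ∧ β m (w 0)) ∨
        (pair N m (w 1) ∉ B ∧ α m (w 0))) (Tm.const a) (D0.or ?_ ?_)
      · exact (D0.mem ((Tm.var 0).pair (Tm.var 2)) hB).and (hβ 0 1)
      · exact (D0.mem ((Tm.var 0).pair (Tm.var 2)) hB).not.and (hα 0 1)) c h1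
    -- the code of `{m | ∃ x < b, α m x}`
    have h2 : ∀ n, n ≤ a → ∃ y, y < c ∧ ∀ m, m < n → (pair N m y ∈ B ↔ ∃ x, x < b ∧ α m x) := by
      intro n
      refine ind_D0 (P := fun n => n ≤ a → ∃ y, y < c ∧
        ∀ m, m < n → (pair N m y ∈ B ↔ ∃ x, x < b ∧ α m x)) ?_ ?_ ?_ n
      · refine D0.imp (D0.le (Tm.var 0) (Tm.const a)) (D0.bex (Tm.const c) (D0.ball (Tm.var 1)
          (D0.iff (D0.mem ((Tm.var 0).pair (Tm.var 1)) hB) (D0.bex (Tm.const b) ?_))))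
        exact hα 1 0
      · intro _
        exact ⟨0, hc, fun m hm => absurd hm (not_lt_of_ge (zero_le' m))⟩
      · intro n ih hn
        have hna : n < a := add_one_le_iff'.1 hn
        obtain ⟨y, hy, h3⟩ := ih hna.le
        obtain ⟨y', hy', h4, h5⟩ := hmod y hy n hna (∃ x, x < b ∧ α n x)
        refine ⟨y', hy', fun m hm => ?_⟩
        rcases lt_or_eq_of_le (lt_add_one_iff'.1 hm) with h6 | rfl
        · rw [h4 m h6, h3 m h6]
        · exact h5
    obtain ⟨y, hy, h3⟩ := h2 a le_rfl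
    obtain ⟨x, hx, m, hm, h4 | h4⟩ := hb y hy
    · obtain ⟨x', -, hx'⟩ := (h3 m hm).1 h4.1
      exact hαβ m x' x hx' h4.2
    · exact h4.1 ((h3 m hm).2 ⟨x, hx, h4.2⟩)
  obtain ⟨y, hy, hyc⟩ := hcode
  -- the alternating subset
  let C : N.M → N.M → Prop := fun m m' => pair N m y ∈ B ∧ pair N m' y ∈ B ∧
    ∀ l, l < m' → m < l → pair N l y ∉ B
  have hC : ∀ i j : ℕ, D0 (fun w : Ctx N => C (w i) (w j)) := fun i j =>
    (D0.mem ((Tm.var i).pair (Tm.const y)) hB).and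
      ((D0.mem ((Tm.var j).pair (Tm.const y)) hB).and
      (D0.ball (P := fun w l => w i < l → pair N l y ∉ B) (Tm.var j)
        ((D0.lt (Tm.var (i + 1)) (Tm.var 0)).imp
          (D0.mem ((Tm.var 0).pair (Tm.const y)) hB).not)))
  have halt : ∃ r, r < c ∧ ∀ m', m' < a → ∀ m, m < m' → C m m' →
      (pair N m r ∈ B ↔ pair N m' r ∉ B) := by
    have h2 : ∀ n, n ≤ a → ∃ r, r < c ∧ ∀ m', m' < n → ∀ m, m < m' → C m m' →
        (pair N m r ∈ B ↔ pair N m' r ∉ B) := by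
      intro n
      refine ind_D0 (P := fun n => n ≤ a → ∃ r, r < c ∧ ∀ m', m' < n → ∀ m, m < m' → C m m' →
        (pair N m r ∈ B ↔ pair N m' r ∉ B)) ?_ ?_ ?_ n
      · refine D0.imp (D0.le (Tm.var 0) (Tm.const a)) (D0.bex (Tm.const c) (D0.ball (Tm.var 1)
          (D0.ball (Tm.var 0) (D0.imp ?_ (D0.iff ?_ ?_)))))
        · exact hC 0 1
        · exact D0.mem ((Tm.var 0).pair (Tm.var 2)) hB
        · exact (D0.mem ((Tm.var 1).pair (Tm.var 2)) hB).not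
      · intro _
        exact ⟨0, hc, fun m hm => absurd hm (not_lt_of_ge (zero_le' m))⟩
      · intro n ih hn
        have hna : n < a := add_one_le_iff'.1 hn
        obtain ⟨r, hr, h3⟩ := ih hna.le
        obtain ⟨r', hr', h4, h5⟩ := hmod r hr n hna (∃ m, m < n ∧ C m n ∧ pair N m r ∉ B)
        refine ⟨r', hr', fun m' hm' m hm hCm => ?_⟩
        rcases lt_or_eq_of_le (lt_add_one_iff'.1 hm') with h6 | rfl
        · rw [h4 m (hm.trans h6), h4 m' h6]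
          exact h3 m' h6 m hm hCm
        · rw [h4 m hm, h5]
          constructor
          · rintro h6 ⟨m₁, h7, h8, h9⟩
            have h10 : m₁ = m := by
              rcases lt_trichotomy m₁ m with h | h | h
              · exact absurd hCm.1 (h8.2.2 m hm h)
              · exact h
              · exact absurd h8.1 (hCm.2.2 m₁ h7 h)
            rw [h10] at h9
            exact h9 h6
          · intro h6
            by_contra h7
            exact h6 ⟨m, hm, hCm, h7⟩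
    exact h2 a le_rfl
  obtain ⟨r, hr, hralt⟩ := halt
  -- two consecutive elements beyond every bound
  have hfar : ∀ b : N.M, ∃ x ∈ X, ∃ x' ∈ X, ∃ m m', b < x ∧ b < x' ∧ J x m ∧ J x' m' ∧
      (pair N m r ∈ B ↔ pair N m' r ∉ B) := by
    intro b
    obtain ⟨n, hn⟩ := hJex b
    have hbig : ∀ n, I n → ∃ x ∈ X, ∃ m, J x m ∧ n < m := by
      intro n hn
      obtain ⟨z, hz⟩ := hIG n hn
      obtain ⟨x, hx, hzx⟩ := hXu' z
      obtain ⟨m, hm⟩ := hJex x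
      exact ⟨x, hx, m, hm, (hJG x m n hm).1 (hz x hzx.le)⟩
    obtain ⟨x, hx, m, hm, hnm⟩ := hbig n (hJI b n hn)
    obtain ⟨z, hz, m₂, hm₂, hmm₂⟩ := hbig m (hJI x m hm)
    have h2 : pair N m₂ y ∈ B := (hyc m₂ (hJI z m₂ hm₂)).2 ⟨z, hz, hm₂⟩
    obtain ⟨m', h3, ⟨h4, h5⟩, h6⟩ := lnp_D0 (P := fun m' => m < m' ∧ pair N m' y ∈ B)
      ((D0.lt (Tm.const m) (Tm.var 0)).and (D0.mem ((Tm.var 0).pair (Tm.const y)) hB)) m₂
      ⟨hmm₂, h2⟩
    have h7 : I m' := fun l hl => hJI z m₂ hm₂ l (hl.trans h3)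
    obtain ⟨x', hx', hJx'⟩ := (hyc m' h7).1 h5
    have hbound : ∀ w k, J w k → n < k → b < w := by
      intro w k hk hnk
      by_contra hcon
      exact absurd (hJmono w b k n (not_lt.1 hcon) hk hn) (not_le_of_gt hnk)
    refine ⟨x, hx, x', hx', m, m', hbound x m hm hnm, hbound x' m' hJx' (hnm.trans h4), hm, hJx',
      ?_⟩
    refine hralt m' (hIa m' h7) m h4 ⟨(hyc m (hJI x m hm)).2 ⟨x, hx, hm⟩, h5, ?_⟩
    intro l hl hml hlB
    exact h6 l hl ⟨hml, hlB⟩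
  rcases hXc r with ⟨b, hb⟩ | ⟨b, hb⟩
  · obtain ⟨x, hx, x', hx', m, m', h1, h2, h3, h4, h5⟩ := hfar b
    have h6 := (hRi r x m h3).1 (hb x hx h1)
    have h7 := (hRi r x' m' h4).1 (hb x' hx' h2)
    exact (h5.1 h6) h7
  · obtain ⟨x, hx, x', hx', m, m', h1, h2, h3, h4, h5⟩ := hfar b
    have h6 := fun h => hb x hx h1 ((hRi r x m h3).2 h)
    have h7 := fun h => hb x' hx' h2 ((hRi r x' m' h4).2 h)
    exact h6 (h5.2 h7)

/-- `RCA*₀ + COH` proves `Σ⁰₁` induction. -/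
theorem sigma1_induction (hcoh : COH N) : Sigma1Induction N := by
  intro θ hθ v h0 hs a
  by_contra ha
  have hD : D0 (fun w => PHolds N θ w) := ⟨θ, hθ, fun _ => Iff.rfl⟩
  exact no_cut hcoh (Q := fun n k => PHolds N θ (cons k (cons n v))) (hD.param v) h0 hs a ha

end Pool.Agent.Q205.RS
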