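import Mathlib

/-!
Second-order arithmetic with a weak base theory: structures for the language `L₂`, formulas,
models of `RCA*₀`, the cohesiveness principle and `Π¹₁`-conservativity.
-/

namespace Pool.Agent.Q205.RS

/-- A structure for the language `L₂` of second-order arithmetic: a set `M` of numbers with
`0`, `1`, `+`, `·`, `<`, and a collection `Sets` of subsets of `M` over which the set
variables range. -/
structure L2Structure where
  M : Type
  zero : M
  one : M
  add : M → M → M
  mul : M → M → M
  lt : M → M → Prop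
  Sets : Set (Set M)

/-- Number terms with constants from `C`. `var i` is the `i`-th number variable. -/
inductive Term (C : Type) : Type
  | var (i : ℕ) : Term C
  | const (c : C) : Term C
  | zero : Term C
  | one : Term C
  | add (s t : Term C) : Term C
  | mul (s t : Term C) : Term C

/-- Arithmetical formulas of `L₂` (no set quantifiers) with number constants from `C` and set
symbols from `S`, in de Bruijn form: `all φ` is `∀ x, φ` and `ball t φ` is `∀ x < t, φ`, where `x` is
the variable `0` of `φ`, and the variable `i` of the quantified formula is the variable `i + 1` of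
`φ`. The other connectives and quantifiers are defined from these ones. -/
inductive Formula (C S : Type) : Type
  | eq (s t : Term C) : Formula C S
  | lt (s t : Term C) : Formula C S
  | mem (t : Term C) (X : S) : Formula C S
  | neg (φ : Formula C S) : Formula C S
  | and (φ ψ : Formula C S) : Formula C S
  | ball (t : Term C) (φ : Formula C S) : Formula C S
  | all (φ : Formula C S) : Formula C S

/-- The `Σ⁰₀` formulas: all quantifiers are bounded. -/
def Formula.Bounded {C S : Type} : Formula C S → Prop
  | .eq _ _ => True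
  | .lt _ _ => True
  | .mem _ _ => True
  | .neg φ => φ.Bounded
  | .and φ ψ => φ.Bounded ∧ ψ.Bounded
  | .ball _ φ => φ.Bounded
  | .all _ => False

/-- `cons a v` is the sequence `a, v 0, v 1, …`. -/
def cons {α : Type} (a : α) (v : ℕ → α) : ℕ → α
  | 0 => a
  | n + 1 => v n

section semantics

variable (N : L2Structure)

/-- The value of a term, where `c` interprets the constants and `v` the variables. -/
def Term.val {C : Type} (c : C → N.M) : Term C → (ℕ → N.M) → N.M
  | .var i, v => v i
  | .const a, _ => c a
  | .zero, _ => N.zero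
  | .one, _ => N.one
  | .add s t, v => N.add (s.val c v) (t.val c v)
  | .mul s t, v => N.mul (s.val c v) (t.val c v)

/-- Truth of a formula in `N`, where `c` interprets the number constants, `X` the set symbols and
`v` the number variables. -/
def Formula.Holds {C S : Type} (c : C → N.M) (X : S → Set N.M) :
    Formula C S → (ℕ → N.M) → Prop
  | .eq s t, v => s.val N c v = t.val N c v
  | .lt s t, v => N.lt (s.val N c v) (t.val N c v)
  | .mem t Y, v => t.val N c v ∈ X Y
  | .neg φ, v => ¬ φ.Holds c X v
  | .and φ ψ, v => φ.Holds c X v ∧ ψ.Holds c X v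
  | .ball t φ, v => ∀ a, N.lt a (t.val N c v) → φ.Holds c X (cons a v)
  | .all φ, v => ∀ a, φ.Holds c X (cons a v)

/-- Arithmetical formulas with number and set parameters from `N`. -/
abbrev PFormula : Type := Formula N.M N.Sets

/-- Truth of a formula with parameters from `N`. -/
abbrev PHolds (φ : PFormula N) (v : ℕ → N.M) : Prop :=
  φ.Holds N (fun a => a) (fun X : N.Sets => (X : Set N.M)) v

/-- The code `(i + j)² + i` of the pair of `i` and `j`. -/
def pair (i j : N.M) : N.M := N.add (N.mul (N.add i j) (N.add i j)) i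

/-- `N` is a model of `RCA*₀`: the axioms of discretely ordered commutative semirings, `exp`,
induction for all `Σ⁰₀` formulas with parameters, and comprehension for all `Δ⁰₁` formulas with
parameters. The axiom `exp` says that there is a set which is the graph of a total function
`x ↦ 2 ^ x` (which is equivalent to the totality of `2 ^ x` in presence of the other axioms,
since the graph is defined by a `Σ⁰₀` formula). -/
structure IsRCA0Star : Prop where
  add_comm : ∀ a b, N.add a b = N.add b a
  add_assoc : ∀ a b c, N.add (N.add a b) c = N.add a (N.add b c)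
  add_zero : ∀ a, N.add a N.zero = a
  mul_comm : ∀ a b, N.mul a b = N.mul b a
  mul_assoc : ∀ a b c, N.mul (N.mul a b) c = N.mul a (N.mul b c)
  mul_one : ∀ a, N.mul a N.one = a
  mul_zero : ∀ a, N.mul a N.zero = N.zero
  mul_add : ∀ a b c, N.mul a (N.add b c) = N.add (N.mul a b) (N.mul a c)
  lt_irrefl : ∀ a, ¬ N.lt a a
  lt_trans : ∀ a b c, N.lt a b → N.lt b c → N.lt a c
  lt_total : ∀ a b, N.lt a b ∨ a = b ∨ N.lt b a
  add_lt_add : ∀ a b c, N.lt a b → N.lt (N.add a c) (N.add b c)
  mul_lt_mul : ∀ a b c, N.lt N.zero c → N.lt a b → N.lt (N.mul a c) (N.mul b c)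
  exists_add : ∀ a b, N.lt a b → ∃ c, N.add a c = b
  zero_lt_one : N.lt N.zero N.one
  discrete : ∀ a, a = N.zero ∨ a = N.one ∨ N.lt N.one a
  exp : ∃ E ∈ N.Sets, pair N N.zero N.one ∈ E ∧
    (∀ x y, pair N x y ∈ E → pair N (N.add x N.one) (N.add y y) ∈ E) ∧
    (∀ x, ∃ y, pair N x y ∈ E ∧ ∀ z, pair N x z ∈ E → z = y)
  sigma0_induction : ∀ θ : PFormula N, θ.Bounded → ∀ v : ℕ → N.M,
    PHolds N θ (cons N.zero v) →
    (∀ n, PHolds N θ (cons n v) → PHolds N θ (cons (N.add n N.one) v)) →
    ∀ n, PHolds N θ (cons n v)
  delta1_comprehension : ∀ θ ψ : PFormula N, θ.Bounded → ψ.Bounded → ∀ v : ℕ → N.M,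
    (∀ n, (∃ k, PHolds N θ (cons k (cons n v))) ↔ ∀ k, PHolds N ψ (cons k (cons n v))) →
    {n | ∃ k, PHolds N θ (cons k (cons n v))} ∈ N.Sets

/-- Induction for `Σ⁰₁` formulas `∃ k, θ(k, n)` with parameters. -/
def Sigma1Induction : Prop := ∀ θ : PFormula N, θ.Bounded → ∀ v : ℕ → N.M,
  (∃ k, PHolds N θ (cons k (cons N.zero v))) →
  (∀ n, (∃ k, PHolds N θ (cons k (cons n v))) →
    ∃ k, PHolds N θ (cons k (cons (N.add n N.one) v))) →
  ∀ n, ∃ k, PHolds N θ (cons k (cons n v))

/-- The cohesiveness principle: every sequence `(Rᵢ)` of sets, `Rᵢ = {x | (i, x) ∈ R}`, has an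
infinite (that is, unbounded) cohesive set `X`. -/
def COH : Prop := ∀ R ∈ N.Sets, ∃ X ∈ N.Sets, (∀ b, ∃ x ∈ X, N.lt b x) ∧
  ∀ i, (∃ b, ∀ x ∈ X, N.lt b x → pair N i x ∈ R) ∨ ∃ b, ∀ x ∈ X, N.lt b x → pair N i x ∉ R

/-- The `Π¹₁` sentence `∀ X₀ X₁ … ∀ x₀ x₁ …, φ` is true in `N`. Here `φ` is an arithmetical formula
without parameters, with set variables `X₀, X₁, …`. -/
def Pi11Holds (φ : Formula Empty ℕ) : Prop :=
  ∀ X : ℕ → Set N.M, (∀ i, X i ∈ N.Sets) → ∀ v : ℕ → N.M, φ.Holds N (fun e => e.elim) X v

end semantics

/-- The `Π¹₁` sentence given by `φ` is provable from the theory whose class of models is `T`: it is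
true in all models of `T`. -/
def Proves (T : L2Structure → Prop) (φ : Formula Empty ℕ) : Prop := ∀ N, T N → Pi11Holds N φ

/-- The theory `T` is `Π¹₁`-conservative over the theory `S`. -/
def Pi11Conservative (T S : L2Structure → Prop) : Prop :=
  ∀ φ : Formula Empty ℕ, Proves T φ → Proves S φ

end Pool.Agent.Q205.RS
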