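import Pool.Agent.Q205.RS.Defs

/-!
A model of `RCA*₀` in which `Σ⁰₁` induction fails: a cut of an ultrapower of the natural numbers,
closed under the exponential function, with the traces of the internal sets.
-/

namespace Pool.Agent.Q205.RS.Model

open Filter

/-- The tower function. -/
def tw : ℕ → ℕ → ℕ
  | 0, i => i
  | n + 1, i => 2 ^ tw n i

theorem tw_lt_succ (n i : ℕ) : tw n i < tw (n + 1) i := Nat.lt_two_pow_self

theorem tw_strictMono (i : ℕ) : StrictMono fun n => tw n i :=
  strictMono_nat_of_lt_succ fun n => tw_lt_succ n i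

theorem two_mul_le_two_pow (t : ℕ) : 2 * t ≤ 2 ^ t := by
  induction t with
  | zero => norm_num
  | succ t ih =>
    rcases Nat.eq_zero_or_pos t with rfl | h
    · norm_num
    · rw [pow_succ]; omega

theorem sq_le (t : ℕ) : t * t < 2 ^ (2 ^ t) := by
  have h1 : t < 2 ^ t := Nat.lt_two_pow_self
  calc t * t < 2 ^ t * 2 ^ t := Nat.mul_lt_mul'' h1 h1
    _ = 2 ^ (2 * t) := by rw [two_mul, pow_add]
    _ ≤ 2 ^ (2 ^ t) := Nat.pow_le_pow_right (by norm_num) (two_mul_le_two_pow t)

/-- The ultrapower of the natural numbers. -/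
abbrev K : Type := (hyperfilter ℕ : Filter ℕ).Germ ℕ

/-- The germ of a function. -/
noncomputable abbrev gm (f : ℕ → ℕ) : K := (f : (hyperfilter ℕ : Filter ℕ).Germ ℕ)

theorem gm_eq {f g : ℕ → ℕ} : gm f = gm g ↔ ∀ᶠ i in (hyperfilter ℕ : Filter ℕ), f i = g i :=
  Filter.Germ.coe_eq

theorem gm_lt {f g : ℕ → ℕ} : gm f < gm g ↔ ∀ᶠ i in (hyperfilter ℕ : Filter ℕ), f i < g i :=
  Filter.Germ.coe_lt

/-- The cut. -/
def InCut (x : K) : Prop := ∃ n, x < gm (tw n)

theorem InCut.of_lt {x y : K} (h : InCut y) (hxy : x < y) : InCut x := by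
  obtain ⟨n, hn⟩ := h
  exact ⟨n, hxy.trans hn⟩

theorem InCut.of_le {x y : K} (h : InCut y) (hxy : x ≤ y) : InCut x := by
  obtain ⟨n, hn⟩ := h
  exact ⟨n, lt_of_le_of_lt hxy hn⟩

theorem gm_tw_mono {m n : ℕ} (h : m ≤ n) : gm (tw m) ≤ gm (tw n) := by
  rcases Nat.lt_or_eq_of_le h with h | rfl
  · refine le_of_lt (gm_lt.2 (Eventually.of_forall fun i => ?_))
    exact tw_strictMono i h
  · exact le_rfl

/-- two elements of the cut are below a common element -/
theorem common {x y : K} (hx : InCut x) (hy : InCut y) : ∃ n, x < gm (tw n) ∧ y < gm (tw n) := by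
  obtain ⟨m, hm⟩ := hx
  obtain ⟨n, hn⟩ := hy
  exact ⟨max m n, hm.trans_le (gm_tw_mono (le_max_left _ _)),
    hn.trans_le (gm_tw_mono (le_max_right _ _))⟩

theorem InCut.add {x y : K} (hx : InCut x) (hy : InCut y) : InCut (x + y) := by
  obtain ⟨n, h1, h2⟩ := common hx hy
  refine ⟨n + 1, ?_⟩
  induction x using Filter.Germ.inductionOn with | _ f => ?_
  induction y using Filter.Germ.inductionOn with | _ g => ?_
  rw [gm_lt] at h1 h2
  show gm (f + g) < _
  rw [gm_lt]
  filter_upwards [h1, h2] with i h1 h2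
  have := two_mul_le_two_pow (tw n i)
  show f i + g i < 2 ^ tw n i
  omega

theorem InCut.mul {x y : K} (hx : InCut x) (hy : InCut y) : InCut (x * y) := by
  obtain ⟨n, h1, h2⟩ := common hx hy
  refine ⟨n + 2, ?_⟩
  induction x using Filter.Germ.inductionOn with | _ f => ?_
  induction y using Filter.Germ.inductionOn with | _ g => ?_
  rw [gm_lt] at h1 h2
  show gm (f * g) < _
  rw [gm_lt]
  filter_upwards [h1, h2] with i h1 h2
  have := sq_le (tw n i)
  show f i * g i < 2 ^ 2 ^ tw n i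
  exact lt_of_le_of_lt (Nat.mul_le_mul h1.le h2.le) this

theorem ev_gt (n : ℕ) : ∀ᶠ i in (hyperfilter ℕ : Filter ℕ), n < i := by
  refine hyperfilter_le_cofinite ?_
  rw [Nat.cofinite_eq_atTop]
  exact eventually_gt_atTop n

theorem inCut_one : InCut (1 : K) := by
  refine ⟨0, ?_⟩
  show gm (fun _ => 1) < gm (tw 0)
  rw [gm_lt]
  exact ev_gt 1

theorem inCut_zero : InCut (0 : K) := by
  refine ⟨0, ?_⟩
  show gm (fun _ => 0) < gm (tw 0)
  rw [gm_lt]
  exact ev_gt 0

/-- The domain of the model. -/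
abbrev Dom : Type := {x : K // InCut x}

/-- A representative of an element of the model. -/
noncomputable def rep (x : Dom) : ℕ → ℕ := Quotient.out x.1

theorem gm_rep (x : Dom) : gm (rep x) = x.1 := Quotient.out_eq x.1

/-- The trace of the internal set given by the sequence `A`. -/
def trace (A : ℕ → Set ℕ) : Set Dom := {x | ∀ᶠ i in (hyperfilter ℕ : Filter ℕ), rep x i ∈ A i}

theorem mem_trace {A : ℕ → Set ℕ} {x : Dom} {f : ℕ → ℕ} (hf : gm f = x.1) :
    x ∈ trace A ↔ ∀ᶠ i in (hyperfilter ℕ : Filter ℕ), f i ∈ A i := by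
  have h := gm_eq.1 (hf.trans (gm_rep x).symm)
  constructor
  · intro h1
    filter_upwards [h, h1] with i h2 h3
    rw [h2]; exact h3
  · intro h1
    show ∀ᶠ i in (hyperfilter ℕ : Filter ℕ), rep x i ∈ A i
    filter_upwards [h, h1] with i h2 h3
    rw [← h2]; exact h3

/-- The model. -/
noncomputable abbrev Nm : L2Structure where
  M := Dom
  zero := ⟨0, inCut_zero⟩
  one := ⟨1, inCut_one⟩
  add x y := ⟨x.1 + y.1, x.2.add y.2⟩
  mul x y := ⟨x.1 * y.1, x.2.mul y.2⟩
  lt x y := x.1 < y.1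
  Sets := {X | ∃ A, X = trace A}

/-- The standard structure. -/
def St : L2Structure where
  M := ℕ
  zero := 0
  one := 1
  add := (· + ·)
  mul := (· * ·)
  lt := (· < ·)
  Sets := Set.univ

/-- A representative of a set of the model. -/
noncomputable def repS (X : Nm.Sets) : ℕ → Set ℕ := X.2.choose

theorem trace_repS (X : Nm.Sets) : (X : Set Dom) = trace (repS X) := X.2.choose_spec

/-- The value of a term in the `i`-th factor. -/
noncomputable def valI (i : ℕ) (t : Term Nm.M) (v : ℕ → ℕ) : ℕ :=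
  t.val St (fun a => rep a i) v

/-- Truth in the `i`-th factor. -/
def holdsI (i : ℕ) (φ : PFormula Nm) (v : ℕ → ℕ) : Prop :=
  φ.Holds St (fun a => rep a i) (fun X => repS X i) v

theorem gm_val (t : Term Nm.M) (v : ℕ → Nm.M) (w : ℕ → ℕ → ℕ) (hw : ∀ k, gm (w k) = (v k).1) :
    gm (fun i => valI i t (fun k => w k i)) = (t.val Nm (fun a => a) v).1 := by
  induction t with
  | var k => exact hw k
  | const a => exact gm_rep a
  | zero => rfl
  | one => rfl
  | add s t hs ht =>
    show _ = (s.val Nm (fun a => a) v).1 + (t.val Nm (fun a => a) v).1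
    rw [← hs, ← ht]
    rfl
  | mul s t hs ht =>
    show _ = (s.val Nm (fun a => a) v).1 * (t.val Nm (fun a => a) v).1
    rw [← hs, ← ht]
    rfl

/-- The theorem of Łoś for bounded formulas in the cut. -/
theorem los (φ : PFormula Nm) (hφ : φ.Bounded) : ∀ (v : ℕ → Nm.M) (w : ℕ → ℕ → ℕ),
    (∀ k, gm (w k) = (v k).1) →
    (PHolds Nm φ v ↔ ∀ᶠ i in (hyperfilter ℕ : Filter ℕ), holdsI i φ (fun k => w k i)) := by
  induction φ with
  | eq s t =>
    intro v w hw
    rw [show PHolds Nm (Formula.eq s t) v ↔ s.val Nm (fun a => a) v = t.val Nm (fun a => a) v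
      from Iff.rfl, Subtype.ext_iff, ← gm_val s v w hw, ← gm_val t v w hw, gm_eq]
    rfl
  | lt s t =>
    intro v w hw
    rw [show PHolds Nm (Formula.lt s t) v ↔
      (s.val Nm (fun a => a) v).1 < (t.val Nm (fun a => a) v).1
      from Iff.rfl, ← gm_val s v w hw, ← gm_val t v w hw, gm_lt]
    rfl
  | mem t X =>
    intro v w hw
    rw [show PHolds Nm (Formula.mem t X) v ↔ t.val Nm (fun a => a) v ∈ (X : Set Dom) from Iff.rfl,
      trace_repS X, mem_trace (gm_val t v w hw)]
    rfl
  | neg φ ih =>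
    intro v w hw
    rw [show PHolds Nm (Formula.neg φ) v ↔ ¬ PHolds Nm φ v from Iff.rfl, ih hφ v w hw,
      ← Ultrafilter.eventually_not]
    rfl
  | and φ ψ ih1 ih2 =>
    intro v w hw
    rw [show PHolds Nm (Formula.and φ ψ) v ↔ PHolds Nm φ v ∧ PHolds Nm ψ v from Iff.rfl,
      ih1 hφ.1 v w hw, ih2 hφ.2 v w hw, ← eventually_and]
    rfl
  | ball t φ ih =>
    intro v w hw
    have hcons : ∀ (a : Nm.M) (f : ℕ → ℕ), gm f = a.1 →
        (PHolds Nm φ (cons a v) ↔ ∀ᶠ i in (hyperfilter ℕ : Filter ℕ),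
          holdsI i φ (cons (f i) (fun k => w k i))) := by
      intro a f hf
      rw [ih hφ (cons a v) (cons f w) (by
        intro k
        cases k with
        | zero => exact hf
        | succ k => exact hw k)]
      refine eventually_congr (Eventually.of_forall fun i => ?_)
      have : (fun k => cons f w k i) = cons (f i) (fun k => w k i) := by
        funext k
        cases k <;> rfl
      rw [this]
    constructor
    · intro h
      by_contra hcon
      rw [← Ultrafilter.eventually_not] at hcon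
      have h1 : ∀ᶠ i in (hyperfilter ℕ : Filter ℕ), ∃ a, a < valI i t (fun k => w k i) ∧
          ¬ holdsI i φ (cons a (fun k => w k i)) := by
        filter_upwards [hcon] with i hi
        by_contra h2
        push Not at h2
        exact hi h2
      let f : ℕ → ℕ := fun i => Classical.epsilon fun a =>
        a < valI i t (fun k => w k i) ∧ ¬ holdsI i φ (cons a (fun k => w k i))
      have h2 : ∀ᶠ i in (hyperfilter ℕ : Filter ℕ), f i < valI i t (fun k => w k i) ∧
          ¬ holdsI i φ (cons (f i) (fun k => w k i)) := by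
        filter_upwards [h1] with i hi
        exact Classical.epsilon_spec hi
      have h3 : gm f < (t.val Nm (fun a => a) v).1 := by
        rw [← gm_val t v w hw, gm_lt]
        exact h2.mono fun i hi => hi.1
      have h4 := h ⟨gm f, (t.val Nm (fun a => a) v).2.of_lt h3⟩ h3
      have h5 := (hcons _ f rfl).1 h4
      obtain ⟨i, hi1, hi2⟩ := (h2.and h5).exists
      exact hi1.2 hi2
    · intro h a ha
      rw [show (Formula.Holds Nm (fun a => a) (fun X : Nm.Sets => (X : Set Nm.M)) φ (cons a v)) ↔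
        PHolds Nm φ (cons a v) from Iff.rfl, hcons a (rep a) (gm_rep a)]
      have ha' : gm (rep a) < (t.val Nm (fun a => a) v).1 := by rw [gm_rep]; exact ha
      rw [← gm_val t v w hw, gm_lt] at ha'
      filter_upwards [h, ha'] with i h1 h2
      exact h1 _ h2
  | all φ ih => exact hφ.elim

/-- One-variable version. -/
theorem los_one (φ : PFormula Nm) (hφ : φ.Bounded) (v : ℕ → Nm.M) (a : Nm.M) (f : ℕ → ℕ)
    (hf : gm f = a.1) : PHolds Nm φ (cons a v) ↔ ∀ᶠ i in (hyperfilter ℕ : Filter ℕ),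
      holdsI i φ (cons (f i) (fun k => rep (v k) i)) := by
  rw [los φ hφ (cons a v) (cons f (fun k => rep (v k))) (by
    intro k
    cases k with
    | zero => exact hf
    | succ k => exact gm_rep _)]
  refine eventually_congr (Eventually.of_forall fun i => ?_)
  have : (fun k => cons f (fun k => rep (v k)) k i) = cons (f i) (fun k => rep (v k) i) := by
    funext k
    cases k <;> rfl
  rw [this]

/-- Two-variable version. -/
theorem los_two (φ : PFormula Nm) (hφ : φ.Bounded) (v : ℕ → Nm.M) (a b : Nm.M) (f g : ℕ → ℕ)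
    (hf : gm f = a.1) (hg : gm g = b.1) :
    PHolds Nm φ (cons a (cons b v)) ↔ ∀ᶠ i in (hyperfilter ℕ : Filter ℕ),
      holdsI i φ (cons (f i) (cons (g i) (fun k => rep (v k) i))) := by
  rw [los φ hφ (cons a (cons b v)) (cons f (cons g (fun k => rep (v k)))) (by
    intro k
    match k with
    | 0 => exact hf
    | 1 => exact hg
    | k + 2 => exact gm_rep _)]
  refine eventually_congr (Eventually.of_forall fun i => ?_)
  have : (fun k => cons f (cons g (fun k => rep (v k))) k i) =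
      cons (f i) (cons (g i) (fun k => rep (v k) i)) := by
    funext k
    match k with
    | 0 => rfl
    | 1 => rfl
    | k + 2 => rfl
  rw [this]

theorem induction (θ : PFormula Nm) (hθ : θ.Bounded) (v : ℕ → Nm.M)
    (h0 : PHolds Nm θ (cons Nm.zero v))
    (hs : ∀ n, PHolds Nm θ (cons n v) → PHolds Nm θ (cons (Nm.add n Nm.one) v)) (n : Nm.M) :
    PHolds Nm θ (cons n v) := by
  classical
  by_contra hcon
  rw [los_one θ hθ v n (rep n) (gm_rep n), ← Ultrafilter.eventually_not] at hcon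
  let f : ℕ → ℕ := fun i => sInf {m | ¬ holdsI i θ (cons m (fun k => rep (v k) i))}
  have hf1 : ∀ᶠ i in (hyperfilter ℕ : Filter ℕ),
      ¬ holdsI i θ (cons (f i) (fun k => rep (v k) i)) := by
    filter_upwards [hcon] with i hi
    exact Nat.sInf_mem (s := {m | ¬ holdsI i θ (cons m (fun k => rep (v k) i))}) ⟨_, hi⟩
  have hf2 : gm f ≤ gm (rep n) := by
    refine Filter.Germ.coe_le.2 ?_
    filter_upwards [hcon] with i hi
    exact Nat.sInf_le hi
  rw [gm_rep] at hf2
  have h1 : ¬ PHolds Nm θ (cons ⟨gm f, n.2.of_le hf2⟩ v) := by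
    rw [los_one θ hθ v _ f rfl, ← Ultrafilter.eventually_not]
    exact hf1
  by_cases hz : gm f = 0
  · apply h1
    have : (⟨gm f, n.2.of_le hf2⟩ : Nm.M) = Nm.zero := Subtype.ext hz
    rw [this]
    exact h0
  · let g : ℕ → ℕ := fun i => f i - 1
    have hpos : ∀ᶠ i in (hyperfilter ℕ : Filter ℕ), f i ≠ 0 := by
      rw [Ultrafilter.eventually_not]
      intro h2
      exact hz (gm_eq.2 h2)
    have hg : ∀ᶠ i in (hyperfilter ℕ : Filter ℕ), f i = g i + 1 := by
      filter_upwards [hpos] with i hi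
      show f i = f i - 1 + 1
      omega
    have hgf : gm g < gm f := by
      rw [gm_lt]
      filter_upwards [hg] with i hi
      omega
    have hgc : InCut (gm g) := (n.2.of_le hf2).of_lt hgf
    have h2 : PHolds Nm θ (cons ⟨gm g, hgc⟩ v) := by
      rw [los_one θ hθ v _ g rfl]
      filter_upwards [hg] with i hi
      by_contra h3
      have : f i ≤ g i := Nat.sInf_le h3
      omega
    have h3 := hs _ h2
    apply h1
    have : (⟨gm f, n.2.of_le hf2⟩ : Nm.M) = Nm.add ⟨gm g, hgc⟩ Nm.one := by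
      apply Subtype.ext
      show gm f = gm g + 1
      exact gm_eq.2 hg
    rw [this]
    exact h3

theorem comprehension (θ ψ : PFormula Nm) (hθ : θ.Bounded) (hψ : ψ.Bounded) (v : ℕ → Nm.M)
    (h : ∀ n, (∃ k, PHolds Nm θ (cons k (cons n v))) ↔ ∀ k, PHolds Nm ψ (cons k (cons n v))) :
    {n | ∃ k, PHolds Nm θ (cons k (cons n v))} ∈ Nm.Sets := by
  classical
  let P : ℕ → ℕ → ℕ → Prop := fun i k n => holdsI i θ (cons k (cons n (fun k => rep (v k) i)))
  let Q : ℕ → ℕ → ℕ → Prop := fun i k n => holdsI i ψ (cons k (cons n (fun k => rep (v k) i)))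
  let A : ℕ → Set ℕ := fun i => {n | ∃ k, P i k n ∧ ∀ l, l < k → ¬ (P i l n ∨ ¬ Q i l n)}
  refine ⟨A, ?_⟩
  ext n
  rw [mem_trace (gm_rep n)]
  have hP : ∀ (k : Nm.M) (f : ℕ → ℕ), gm f = k.1 → (PHolds Nm θ (cons k (cons n v)) ↔
      ∀ᶠ i in (hyperfilter ℕ : Filter ℕ), P i (f i) (rep n i)) := fun k f hf =>
    los_two θ hθ v k n f (rep n) hf (gm_rep n)
  have hQ : ∀ (k : Nm.M) (f : ℕ → ℕ), gm f = k.1 → (PHolds Nm ψ (cons k (cons n v)) ↔
      ∀ᶠ i in (hyperfilter ℕ : Filter ℕ), Q i (f i) (rep n i)) := fun k f hf =>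
    los_two ψ hψ v k n f (rep n) hf (gm_rep n)
  constructor
  · rintro ⟨k, hk⟩
    have hall := (h n).1 ⟨k, hk⟩
    have h1 := (hP k (rep k) (gm_rep k)).1 hk
    let f : ℕ → ℕ := fun i => sInf {l | P i l (rep n i) ∨ ¬ Q i l (rep n i)}
    have hf1 : ∀ᶠ i in (hyperfilter ℕ : Filter ℕ), P i (f i) (rep n i) ∨ ¬ Q i (f i) (rep n i) := by
      filter_upwards [h1] with i hi
      exact Nat.sInf_mem (s := {l | P i l (rep n i) ∨ ¬ Q i l (rep n i)}) ⟨_, Or.inl hi⟩
    have hf2 : gm f ≤ gm (rep k) := by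
      refine Filter.Germ.coe_le.2 ?_
      filter_upwards [h1] with i hi
      exact Nat.sInf_le (Or.inl hi)
    rw [gm_rep] at hf2
    have h2 := (hQ ⟨gm f, k.2.of_le hf2⟩ f rfl).1 (hall _)
    filter_upwards [hf1, h2] with i h3 h4
    refine ⟨f i, h3.resolve_right (not_not.2 h4), fun l hl h5 => ?_⟩
    have : f i ≤ l := Nat.sInf_le h5
    omega
  · intro h1
    obtain ⟨k, hk⟩ : ∃ k : Nm.M, PHolds Nm θ (cons k (cons n v)) ∨
        ¬ PHolds Nm ψ (cons k (cons n v)) := by
      by_contra hcon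
      push Not at hcon
      obtain ⟨k, hk⟩ := (h n).2 fun k => (hcon k).2
      exact (hcon k).1 hk
    rw [hP k (rep k) (gm_rep k), hQ k (rep k) (gm_rep k), ← Ultrafilter.eventually_not,
      ← Ultrafilter.eventually_or] at hk
    let f : ℕ → ℕ := fun i => Classical.epsilon fun k =>
      P i k (rep n i) ∧ ∀ l, l < k → ¬ (P i l (rep n i) ∨ ¬ Q i l (rep n i))
    have hf : ∀ᶠ i in (hyperfilter ℕ : Filter ℕ), P i (f i) (rep n i) ∧
        ∀ l, l < f i → ¬ (P i l (rep n i) ∨ ¬ Q i l (rep n i)) := by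
      filter_upwards [h1] with i hi
      exact Classical.epsilon_spec hi
    have hfk : gm f ≤ gm (rep k) := by
      refine Filter.Germ.coe_le.2 ?_
      filter_upwards [hf, hk] with i h2 h3
      by_contra hcon
      exact h2.2 (rep k i) (not_le.1 hcon) h3
    rw [gm_rep] at hfk
    exact ⟨⟨gm f, k.2.of_le hfk⟩, (hP _ f rfl).2 (hf.mono fun i hi => hi.1)⟩

theorem std_pair_inj {i j i' j' : ℕ} (h : (i + j) * (i + j) + i = (i' + j') * (i' + j') + i') :
    i = i' ∧ j = j' := by
  have key : ∀ i j i' j' : ℕ, (i + j) * (i + j) + i = (i' + j') * (i' + j') + i' →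
      ¬ i + j < i' + j' := by
    intro i j i' j' h hlt
    have h1 : (i + j + 1) * (i + j + 1) ≤ (i' + j') * (i' + j') := Nat.mul_le_mul hlt hlt
    have h2 : (i + j + 1) * (i + j + 1) = (i + j) * (i + j) + 2 * (i + j) + 1 := by ring
    omega
  have h1 : i + j = i' + j' :=
    le_antisymm (not_lt.1 (key _ _ _ _ h.symm)) (not_lt.1 (key _ _ _ _ h))
  rw [h1] at h
  omega

/-- The set of pairs of the internal relation given by `R`. -/
def rel (R : ℕ → ℕ → ℕ → Prop) : Set Dom :=
  trace fun i => {p | ∃ x y, p = (x + y) * (x + y) + x ∧ R i x y}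

theorem rel_mem_sets (R : ℕ → ℕ → ℕ → Prop) : rel R ∈ Nm.Sets := ⟨_, rfl⟩

theorem pair_mem_rel {R : ℕ → ℕ → ℕ → Prop} {x y : Nm.M} {f g : ℕ → ℕ} (hf : gm f = x.1)
    (hg : gm g = y.1) : pair Nm x y ∈ rel R ↔
      ∀ᶠ i in (hyperfilter ℕ : Filter ℕ), R i (f i) (g i) := by
  have h1 : gm (fun i => (f i + g i) * (f i + g i) + f i) = (pair Nm x y).1 := by
    show _ = (x.1 + y.1) * (x.1 + y.1) + x.1
    rw [← hf, ← hg]
    rfl
  unfold rel
  rw [mem_trace h1]
  refine eventually_congr (Eventually.of_forall fun i => ?_)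
  constructor
  · rintro ⟨x', y', h2, h3⟩
    obtain ⟨rfl, rfl⟩ := std_pair_inj h2
    exact h3
  · intro h2
    exact ⟨_, _, rfl, h2⟩

theorem exp : ∃ E ∈ Nm.Sets, pair Nm Nm.zero Nm.one ∈ E ∧
    (∀ x y, pair Nm x y ∈ E → pair Nm (Nm.add x Nm.one) (Nm.add y y) ∈ E) ∧
    (∀ x, ∃ y, pair Nm x y ∈ E ∧ ∀ z, pair Nm x z ∈ E → z = y) := by
  refine ⟨rel fun _ x y => y = 2 ^ x, rel_mem_sets _, ?_, ?_, ?_⟩
  · rw [pair_mem_rel (f := fun _ => 0) (g := fun _ => 1) rfl rfl]
    exact Eventually.of_forall fun i => by norm_num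
  · intro x y h
    rw [pair_mem_rel (gm_rep x) (gm_rep y)] at h
    rw [pair_mem_rel (f := fun i => rep x i + 1) (g := fun i => rep y i + rep y i)]
    · filter_upwards [h] with i hi
      rw [hi, pow_succ]; ring
    · show gm (rep x) + gm (fun _ => 1) = x.1 + 1
      rw [gm_rep]; rfl
    · show gm (rep y) + gm (rep y) = y.1 + y.1
      rw [gm_rep]
  · intro x
    have hc : InCut (gm fun i => 2 ^ rep x i) := by
      obtain ⟨n, hn⟩ := x.2
      rw [← gm_rep x, gm_lt] at hn
      refine ⟨n + 1, ?_⟩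
      rw [gm_lt]
      filter_upwards [hn] with i hi
      exact Nat.pow_lt_pow_right (by norm_num) hi
    refine ⟨⟨gm fun i => 2 ^ rep x i, hc⟩, ?_, fun z hz => ?_⟩
    · rw [pair_mem_rel (gm_rep x) rfl]
      exact Eventually.of_forall fun i => rfl
    · rw [pair_mem_rel (gm_rep x) (gm_rep z)] at hz
      apply Subtype.ext
      show z.1 = _
      rw [← gm_rep z]
      exact gm_eq.2 hz

theorem isRCA0Star : IsRCA0Star Nm where
  add_comm a b := Subtype.ext (add_comm a.1 b.1)
  add_assoc a b c := Subtype.ext (add_assoc a.1 b.1 c.1)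
  add_zero a := Subtype.ext (add_zero a.1)
  mul_comm a b := Subtype.ext (mul_comm a.1 b.1)
  mul_assoc a b c := Subtype.ext (mul_assoc a.1 b.1 c.1)
  mul_one a := Subtype.ext (mul_one a.1)
  mul_zero a := Subtype.ext (mul_zero a.1)
  mul_add a b c := Subtype.ext (mul_add a.1 b.1 c.1)
  lt_irrefl a := lt_irrefl a.1
  lt_trans a b c h1 h2 := lt_trans (a := a.1) h1 h2
  lt_total a b := by
    rcases lt_trichotomy a.1 b.1 with h | h | h
    · exact Or.inl h
    · exact Or.inr (Or.inl (Subtype.ext h))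
    · exact Or.inr (Or.inr h)
  add_lt_add a b c h := by
    show a.1 + c.1 < b.1 + c.1
    have h' : gm (rep a) < gm (rep b) := by rw [gm_rep, gm_rep]; exact h
    rw [gm_lt] at h'
    rw [← gm_rep a, ← gm_rep b, ← gm_rep c]
    show gm (rep a + rep c) < gm (rep b + rep c)
    rw [gm_lt]
    filter_upwards [h'] with i hi
    show rep a i + rep c i < rep b i + rep c i
    omega
  mul_lt_mul a b c hc h := by
    show a.1 * c.1 < b.1 * c.1
    have h' : gm (rep a) < gm (rep b) := by rw [gm_rep, gm_rep]; exact h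
    have hc' : gm (fun _ => 0) < gm (rep c) := by rw [gm_rep]; exact hc
    rw [gm_lt] at h' hc'
    rw [← gm_rep a, ← gm_rep b, ← gm_rep c]
    show gm (rep a * rep c) < gm (rep b * rep c)
    rw [gm_lt]
    filter_upwards [h', hc'] with i hi hi'
    exact Nat.mul_lt_mul_of_pos_right hi hi'
  exists_add a b h := by
    have h' : gm (rep a) < gm (rep b) := by rw [gm_rep, gm_rep]; exact h
    rw [gm_lt] at h'
    have hle : gm (fun i => rep b i - rep a i) ≤ b.1 := by
      rw [← gm_rep b]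
      exact Filter.Germ.coe_le.2 (Eventually.of_forall fun i => Nat.sub_le _ _)
    refine ⟨⟨gm (fun i => rep b i - rep a i), b.2.of_le hle⟩, ?_⟩
    apply Subtype.ext
    show a.1 + gm (fun i => rep b i - rep a i) = b.1
    rw [← gm_rep a, ← gm_rep b]
    refine gm_eq.2 ?_
    filter_upwards [h'] with i hi
    show rep a i + (rep b i - rep a i) = rep b i
    omega
  zero_lt_one := by
    show gm (fun _ => 0) < gm (fun _ => 1)
    rw [gm_lt]
    exact Eventually.of_forall fun i => Nat.zero_lt_one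
  discrete a := by
    by_cases h0 : a = Nm.zero
    · exact Or.inl h0
    by_cases h1 : a = Nm.one
    · exact Or.inr (Or.inl h1)
    · right; right
      show gm (fun _ => 1) < a.1
      rw [← gm_rep a, gm_lt]
      have h0' : ∀ᶠ i in (hyperfilter ℕ : Filter ℕ), ¬ rep a i = 0 := by
        rw [Ultrafilter.eventually_not]
        intro h
        apply h0
        apply Subtype.ext
        rw [← gm_rep a]
        exact gm_eq.2 h
      have h1' : ∀ᶠ i in (hyperfilter ℕ : Filter ℕ), ¬ rep a i = 1 := by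
        rw [Ultrafilter.eventually_not]
        intro h
        apply h1
        apply Subtype.ext
        rw [← gm_rep a]
        exact gm_eq.2 h
      filter_upwards [h0', h1'] with i hi hi'
      omega
  exp := exp
  sigma0_induction := induction
  delta1_comprehension := comprehension

/-- A set of the model whose projection is a proper cut. -/
theorem cut : ∃ X ∈ Nm.Sets, (∃ y, pair Nm Nm.zero y ∈ X) ∧
    (∀ n, (∃ y, pair Nm n y ∈ X) → ∃ y, pair Nm (Nm.add n Nm.one) y ∈ X) ∧
    ∃ n, ¬ ∃ y, pair Nm n y ∈ X := by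
  refine ⟨rel fun i x y => y = tw x i, rel_mem_sets _, ?_, ?_, ?_⟩
  · refine ⟨⟨gm (tw 0), 1, gm_lt.2 (Eventually.of_forall fun i => tw_lt_succ 0 i)⟩, ?_⟩
    rw [pair_mem_rel (f := fun _ => 0) (g := tw 0) rfl rfl]
    exact Eventually.of_forall fun i => rfl
  · rintro n ⟨y, hy⟩
    rw [pair_mem_rel (gm_rep n) (gm_rep y)] at hy
    have hc : InCut (gm fun i => 2 ^ rep y i) := by
      obtain ⟨n, hn⟩ := y.2
      rw [← gm_rep y, gm_lt] at hn
      refine ⟨n + 1, ?_⟩
      rw [gm_lt]
      filter_upwards [hn] with i hi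
      exact Nat.pow_lt_pow_right (by norm_num) hi
    refine ⟨⟨gm fun i => 2 ^ rep y i, hc⟩, ?_⟩
    rw [pair_mem_rel (f := fun i => rep n i + 1) (g := fun i => 2 ^ rep y i) ?_ rfl]
    · filter_upwards [hy] with i hi
      rw [hi]; rfl
    · show gm (rep n) + gm (fun _ => 1) = n.1 + 1
      rw [gm_rep]; rfl
  · refine ⟨⟨gm (tw 0), 1, gm_lt.2 (Eventually.of_forall fun i => tw_lt_succ 0 i)⟩, ?_⟩
    rintro ⟨y, hy⟩
    rw [pair_mem_rel (f := tw 0) rfl (gm_rep y)] at hy
    obtain ⟨m, hm⟩ := y.2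
    rw [← gm_rep y, gm_lt] at hm
    obtain ⟨i, h1, h2, h3⟩ := (hy.and (hm.and (ev_gt m))).exists
    rw [h1] at h2
    have h4 := (tw_strictMono i).lt_iff_lt.1 h2
    have h5 : tw 0 i = i := rfl
    omega

end Pool.Agent.Q205.RS.Model
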