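import Pool.Agent.Q205.RS.Defs

/-!
The ordered semiring of a model of `RCA*₀`.
-/

namespace Pool.Agent.Q205.RS

/-- Models of `RCA*₀` as a class. -/
class Mod (N : L2Structure) : Prop where
  h : IsRCA0Star N

variable {N : L2Structure} [hN : Mod N]

instance : Zero N.M := ⟨N.zero⟩
instance : One N.M := ⟨N.one⟩
instance : Add N.M := ⟨N.add⟩
instance : Mul N.M := ⟨N.mul⟩

noncomputable instance : CommSemiring N.M where
  nsmul := nsmulRec
  npow := npowRec
  add_assoc := hN.h.add_assoc
  add_comm := hN.h.add_comm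
  add_zero := hN.h.add_zero
  zero_add a := (hN.h.add_comm _ _).trans (hN.h.add_zero a)
  mul_assoc := hN.h.mul_assoc
  mul_comm := hN.h.mul_comm
  mul_one := hN.h.mul_one
  one_mul a := (hN.h.mul_comm _ _).trans (hN.h.mul_one a)
  mul_zero := hN.h.mul_zero
  zero_mul a := (hN.h.mul_comm _ _).trans (hN.h.mul_zero a)
  left_distrib := hN.h.mul_add
  right_distrib a b c := by
    show N.mul (N.add a b) c = N.add (N.mul a c) (N.mul b c)
    rw [hN.h.mul_comm, hN.h.mul_add, hN.h.mul_comm c a, hN.h.mul_comm c b]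

theorem le_aux (a b : N.M) : (N.lt a b ↔ (N.lt a b ∨ a = b) ∧ ¬ (N.lt b a ∨ b = a)) := by
  constructor
  · intro h
    refine ⟨Or.inl h, ?_⟩
    rintro (h2 | rfl)
    · exact hN.h.lt_irrefl _ (hN.h.lt_trans _ _ _ h h2)
    · exact hN.h.lt_irrefl _ h
  · rintro ⟨h | rfl, h2⟩
    · exact h
    · exact absurd (Or.inr rfl) h2

noncomputable instance : LinearOrder N.M where
  le a b := N.lt a b ∨ a = b
  lt := N.lt
  le_refl a := Or.inr rfl
  le_trans a b c := by
    rintro (h1 | rfl) (h2 | rfl)
    · exact Or.inl (hN.h.lt_trans _ _ _ h1 h2)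
    · exact Or.inl h1
    · exact Or.inl h2
    · exact Or.inr rfl
  lt_iff_le_not_ge := le_aux
  le_antisymm a b := by
    rintro (h1 | rfl) (h2 | h2)
    · exact absurd (hN.h.lt_trans _ _ _ h1 h2) (hN.h.lt_irrefl _)
    · exact h2.symm
    · rfl
    · rfl
  le_total a b := by
    rcases hN.h.lt_total a b with h | h | h
    · exact Or.inl (Or.inl h)
    · exact Or.inl (Or.inr h)
    · exact Or.inr (Or.inl h)
  toDecidableLE := Classical.decRel _

theorem lt_iff (a b : N.M) : a < b ↔ N.lt a b := Iff.rfl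
omit hN in
theorem add_def (a b : N.M) : N.add a b = a + b := rfl
omit hN in
theorem mul_def (a b : N.M) : N.mul a b = a * b := rfl
omit hN in
theorem zero_def : N.zero = (0 : N.M) := rfl
omit hN in
theorem one_def : N.one = (1 : N.M) := rfl

theorem zero_le' (a : N.M) : 0 ≤ a := by
  rcases hN.h.discrete a with h | h | h
  · exact le_of_eq h.symm
  · rw [h]; exact le_of_lt hN.h.zero_lt_one
  · exact le_of_lt (hN.h.lt_trans _ _ _ hN.h.zero_lt_one h)

theorem exists_add' {a b : N.M} (h : a ≤ b) : ∃ c, b = a + c := by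
  rcases h with h | h
  · obtain ⟨c, hc⟩ := hN.h.exists_add a b h
    exact ⟨c, hc.symm⟩
  · exact ⟨0, by rw [add_zero]; exact h.symm⟩

instance : IsOrderedAddMonoid N.M where
  add_le_add_left a b h c := by
    rcases h with h | rfl
    · exact le_of_lt (hN.h.add_lt_add _ _ c h)
    · exact le_rfl

instance : IsStrictOrderedRing N.M where
  zero_le_one := le_of_lt hN.h.zero_lt_one
  exists_pair_ne := ⟨0, 1, ne_of_lt hN.h.zero_lt_one⟩
  le_of_add_le_add_left a b c h := by
    by_contra hcon
    rw [not_le] at hcon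
    have := hN.h.add_lt_add _ _ a hcon
    rw [lt_iff, add_def, add_def] at *
    have h2 : c + a < b + a := this
    rw [add_comm c, add_comm b] at h2
    exact absurd h (not_le_of_gt h2)
  mul_lt_mul_of_pos_left a ha b c hbc := by
    have := hN.h.mul_lt_mul _ _ a ha hbc
    rw [mul_def, mul_def] at this
    have h2 : b * a < c * a := this
    rw [mul_comm a b, mul_comm a c]
    exact h2
  mul_lt_mul_of_pos_right a ha b c hbc := hN.h.mul_lt_mul _ _ a ha hbc

theorem lt_add_one_iff' {a b : N.M} : a < b + 1 ↔ a ≤ b := by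
  constructor
  · intro h
    by_contra hcon
    rw [not_le] at hcon
    obtain ⟨c, hc⟩ := exists_add' hcon.le
    rw [hc] at h
    rcases hN.h.discrete c with h1 | h1 | h1
    · have h1' : c = 0 := h1
      rw [h1', add_zero] at hc
      exact absurd hcon (by rw [hc]; exact lt_irrefl _)
    · have h1' : c = 1 := h1
      rw [h1'] at h
      exact absurd h (lt_irrefl _)
    · have h1' : 1 < c := h1
      have := (add_lt_add_iff_left b).1 h
      exact absurd (this.trans h1') (lt_irrefl _)
  · intro h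
    exact lt_of_le_of_lt h (lt_add_one b)

theorem add_one_le_iff' {a b : N.M} : a + 1 ≤ b ↔ a < b := by
  rw [← not_lt, lt_add_one_iff', not_le]

theorem eq_zero_or_succ (a : N.M) : a = 0 ∨ ∃ b, a = b + 1 := by
  by_cases h : a = 0
  · exact Or.inl h
  · right
    have h1 : 0 < a := lt_of_le_of_ne (zero_le' a) (Ne.symm h)
    obtain ⟨c, hc⟩ := exists_add' (add_one_le_iff'.2 h1)
    refine ⟨c, ?_⟩
    rw [hc, zero_add, add_comm]

theorem le_add_right' (a b : N.M) : a ≤ a + b := le_add_of_nonneg_right (zero_le' b)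
theorem le_add_left' (a b : N.M) : a ≤ b + a := le_add_of_nonneg_left (zero_le' b)

end Pool.Agent.Q205.RS
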